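import Pool.Agent.H65.HZ.NORM

/-!
# The surface has dimension two
-/

namespace Pool.Agent.H65.HZ.DIM

open MvPolynomial Pool.Agent.H12.HS Pool.Agent.H65.HZ

universe u

/-- integral injective extensions preserve the dimension -/
theorem dim_eq {R S : Type u} [CommRing R] [CommRing S] [IsDomain S] [Algebra R S] [Algebra.IsIntegral R S]
    [FaithfulSMul R S] [IsDomain R] : ringKrullDim S = ringKrullDim R := by
  apply le_antisymm
  · refine Order.krullDim_le_of_strictMono (PrimeSpectrum.comap (algebraMap R S)) ?_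
    intro I J hIJ
    exact Ideal.IsIntegral.comap_lt_comap (R := R) (I := I.asIdeal) (J := J.asIdeal) hIJ
  · refine iSup_le fun l => ?_
    have hp : (Ideal.comap (algebraMap R S) (⊥ : Ideal S)) = ⊥ := by
      rw [← RingHom.ker_eq_comap_bot, RingHom.ker_eq_bot_iff_eq_zero]
      intro x hx
      exact (FaithfulSMul.algebraMap_eq_zero_iff R S).1 hx
    obtain ⟨Q, -, hQ, hQ2⟩ := Ideal.exists_ideal_over_prime_of_isIntegral (R := R) (S := S)
      l.head.asIdeal (⊥ : Ideal S) (by rw [hp]; exact bot_le)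
    have : Q.LiesOver l.head.asIdeal := ⟨hQ2.symm⟩
    obtain ⟨L, hL, -, -⟩ := Ideal.exists_ltSeries_of_hasGoingUp l Q
    rw [← hL]
    exact le_iSup (fun p : LTSeries (PrimeSpectrum S) => ((p.length : ℕ) : WithBot ℕ∞)) L

/-- the module DIM -/
theorem dim : T_DIM.{u} := by
  intro k _ _ _
  have h1 : IsDomain (BB k) := NORM.dom (gg k) (NORM.sqf k) (NORM.gg_not_unit k)
  have h2 : FaithfulSMul (RR k) (BB k) := by
    rw [faithfulSMul_iff_algebraMap_injective]
    intro a b hab
    exact congrArg QuadraticAlgebra.re hab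
  rw [ringKrullDim_eq_of_ringEquiv (eqv k).toRingEquiv, dim_eq (R := RR k) (S := BB k)]
  rw [MvPolynomial.ringKrullDim_of_isNoetherianRing, ringKrullDim_eq_zero_of_field]
  simp

end Pool.Agent.H65.HZ.DIM
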