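import Pool.Agent.H65.HZ.Fam

/-!
# Irreducibility of the schemes representing the Hilbert functor
-/

namespace Pool.Agent.H65.HZ.FUN

open Matrix TensorProduct CategoryTheory AlgebraicGeometry Pool.Agent.H12.HS Pool.Agent.H65.HZ.Pts
  Pool.Agent.H65.HZ.TR Pool.Agent.H65.HZ.IRR Pool.Agent.H65.HZ.Fam

universe u

section basis

/-- a basis among the images of the elements of `A` -/
theorem exists_bas {K W A : Type u} [Field K] [AddCommGroup W] [Module K W] [Module.Finite K W]
    (π : A → W) (hspan : Submodule.span K (Set.range π) = ⊤) (d : ℕ)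
    (hd : Module.finrank K W = d) : ∃ (m : Fin d → A) (bas : Module.Basis (Fin d) K W),
      ∀ i, bas i = π (m i) := by
  obtain ⟨b, hb1, hb2, hb3⟩ := exists_linearIndependent K (Set.range π)
  rw [hspan] at hb2
  let B : Module.Basis b K W := Module.Basis.mk hb3 (by
    rw [Subtype.range_coe, hb2])
  have hfin : Finite b := Module.Finite.finite_basis B
  have : Fintype b := Fintype.ofFinite b
  have hcard : Fintype.card b = d := by
    rw [← hd, Module.finrank_eq_card_basis B]
  let e := Fintype.equivFinOfCardEq hcard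
  have hch : ∀ i : Fin d, ∃ a : A, π a = (e.symm i : W) := fun i => hb1 (e.symm i).2
  choose m hm using hch
  refine ⟨m, B.reindex e, fun i => ?_⟩
  rw [Module.Basis.reindex_apply, Module.Basis.mk_apply, hm]

end basis

section scheme

variable {k : Type u} [Field k] {d : ℕ} {H : Scheme.{u}} {s : H ⟶ Spec (CommRingCat.of k)}

/-- the type of `R`-points over `k` -/
abbrev PtS (s : H ⟶ Spec (CommRingCat.of k)) (R : Type u) [CommRing R] [Algebra k R] : Type u :=
  {f : Spec (CommRingCat.of R) ⟶ H // f ≫ s = Spec.map (CommRingCat.ofHom (algebraMap k R))}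

/-- the generic point of the spectrum of a field -/
noncomputable def gpt (K : Type u) [Field K] : Spec (CommRingCat.of K) := (⟨⊥, Ideal.isPrime_bot⟩ : PrimeSpectrum K)

/-- base change of points -/
noncomputable def bc {R R' : Type u} [CommRing R] [Algebra k R] [CommRing R'] [Algebra k R'] (φ : R →ₐ[k] R')
    (f : PtS s R) : PtS s R' :=
  ⟨Spec.map (CommRingCat.ofHom φ.toRingHom) ≫ f.1, by
    rw [Category.assoc, f.2, ← Spec.map_comp, ← CommRingCat.ofHom_comp]
    congr 2
    exact φ.comp_algebraMap⟩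

theorem main_open (hall : T_ALL.{u}) [IsAlgClosed k] [CharZero k]
    (fam : ∀ (R : Type u) [CommRing R] [Algebra k R], PtS s R → HilbFam k (SurfRing k) R d)
    (hbij : ∀ (R : Type u) [CommRing R] [Algebra k R], Function.Bijective (fam R))
    (hnat : ∀ (R R' : Type u) [CommRing R] [Algebra k R] [CommRing R'] [Algebra k R']
      (φ : R →ₐ[k] R') (f : PtS s R), (fam R' (bc φ f)).1 =
        (fam R f).1.map (Algebra.TensorProduct.map φ (AlgHom.id k (SurfRing k))).toRingHom)
    (U : Set H) (hU : IsOpen U) (K : Type u) [Field K] [IsAlgClosed K] [Algebra k K]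
    (x : PtS s K) (hx : x.1 (gpt K) ∈ U) :
    PP fun r : Fin d → SP k => ∃ y : PtS s k, (fam k y).1 = RingHom.ker (psiR r).toRingHom ∧
      y.1 (gpt k) ∈ U := by
  have hI1 : Module.Finite K ((K ⊗[k] SurfRing k) ⧸ (fam K x).1) := (fam K x).2.1
  have hI2 : ∀ p : PrimeSpectrum K,
      Module.rankAtStalk (R := K) ((K ⊗[k] SurfRing k) ⧸ (fam K x).1) p = d := (fam K x).2.2.2
  set I := (fam K x).1 with hI
  have hd : Module.finrank K ((K ⊗[k] SurfRing k) ⧸ I) = d := by
    have := hI2 ⟨⊥, Ideal.isPrime_bot⟩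
    rw [Module.rankAtStalk_eq_finrank_of_free] at this
    exact_mod_cast this
  let π : SurfRing k →+* ((K ⊗[k] SurfRing k) ⧸ I) :=
    (Ideal.Quotient.mk I).comp (Algebra.TensorProduct.includeRight :
      SurfRing k →ₐ[k] K ⊗[k] SurfRing k).toRingHom
  have hmk : ∀ (t : K) (a : SurfRing k), Ideal.Quotient.mk I (t ⊗ₜ a) = t • π a := by
    intro t a
    have h : (t ⊗ₜ[k] a : K ⊗[k] SurfRing k) = t • (1 ⊗ₜ[k] a) := by
      rw [TensorProduct.smul_tmul', smul_eq_mul, mul_one]
    rw [h]
    rfl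
  have hπ : ∀ c : k, π (algebraMap k _ c) = algebraMap K _ (algebraMap k K c) := by
    intro c
    have h1 : π (algebraMap k _ c) = Ideal.Quotient.mk I (algebraMap k K c ⊗ₜ 1) := by
      change Ideal.Quotient.mk I (1 ⊗ₜ algebraMap k _ c) = _
      congr 1
      rw [Algebra.algebraMap_eq_smul_one, ← TensorProduct.smul_tmul, ← Algebra.algebraMap_eq_smul_one]
    rw [h1]
    rfl
  have hspan : Submodule.span K (Set.range π) = ⊤ := by
    rw [eq_top_iff]
    intro w _
    obtain ⟨t, rfl⟩ := Ideal.Quotient.mk_surjective w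
    induction t using TensorProduct.induction_on with
    | zero => rw [map_zero]; exact Submodule.zero_mem _
    | tmul t a => rw [hmk]; exact Submodule.smul_mem _ _ (Submodule.subset_span ⟨a, rfl⟩)
    | add p q hp hq => rw [map_add]; exact Submodule.add_mem _ (hp trivial) (hq trivial)
  obtain ⟨m, bas, hbas⟩ := exists_bas (fun a => π a) hspan d hd
  have htr := fun F hF => tr hall (algebraMap k K) ((K ⊗[k] SurfRing k) ⧸ I) π hπ hspan m bas hbas F hF
  have hker : I = JJ (k := k) m fun a i => bas.repr (π a) i := by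
    rw [← ker_eq m (fun a i => bas.repr (π a) i) (Ideal.Quotient.mk I), Ideal.mk_ker]
    · intro a
      rw [gn, map_sub, map_sum, hmk, one_smul, sub_eq_zero]
      conv_lhs => rw [← bas.sum_repr (π a)]
      refine Finset.sum_congr rfl fun i _ => ?_
      rw [hmk, hbas]
    · intro t ht
      rw [map_sum] at ht
      have h1 : ∑ i, t i • bas i = 0 := by
        rw [← ht]
        refine Finset.sum_congr rfl fun i _ => ?_
        rw [hmk, hbas]
      funext i
      exact Fintype.linearIndependent_iff.1 bas.linearIndependent t h1 i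
  let χ : CC m →ₐ[k] K := Ideal.Quotient.liftₐ _
    (MvPolynomial.aeval fun x : SurfRing k × Fin d => bas.repr (π x.1) x.2) (by
      intro F hF
      have hF' : ∀ r : Fin d → SP k, (EM r m).det ≠ 0 → MvPolynomial.eval (lam r m) F = 0 := by
        intro r hr
        rw [← toF_mk m ⟨r, hr⟩ F]
        have : (Ideal.Quotient.mk _ F : CC m) = 0 := Ideal.Quotient.eq_zero_iff_mem.2 hF
        rw [this, map_zero]
        rfl
      exact htr F hF')
  have hχ : ∀ a i, χ (lC m a i) = bas.repr (π a) i := by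
    intro a i
    change MvPolynomial.aeval (fun x : SurfRing k × Fin d => bas.repr (π x.1) x.2)
      (MvPolynomial.X (a, i)) = _
    rw [MvPolynomial.aeval_X]
  obtain ⟨θ, hθ⟩ := (hbij (CC m)).2 (famC m)
  have hx2 : bc χ θ = x := by
    apply (hbij K).1
    apply Subtype.ext
    rw [hnat, hθ, ← hI, hker]
    change (JJ (k := k) m (lC m)).map _ = _
    rw [map_JJ]
    congr 1
    funext a i
    exact hχ a i
  have hV : IsOpen (θ.1 ⁻¹' U : Set (Spec (CommRingCat.of (CC m)))) := hU.preimage θ.1.continuous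
  have hy : (Spec.map (CommRingCat.ofHom χ.toRingHom)) (gpt K) ∈
      (θ.1 ⁻¹' U : Set (Spec (CommRingCat.of (CC m)))) := by
    rw [Set.mem_preimage]
    rw [← hx2] at hx
    exact hx
  obtain ⟨_, ⟨g, rfl⟩, hg1, hg2⟩ :=
    PrimeSpectrum.isTopologicalBasis_basic_opens.exists_subset_of_mem_open
      (a := ((Spec.map (CommRingCat.ofHom χ.toRingHom)) (gpt K) : PrimeSpectrum (CC m))) hy hV
  obtain ⟨F, hF⟩ := Ideal.Quotient.mk_surjective g
  have hχF : MvPolynomial.eval₂ (algebraMap k K) (fun x => bas.repr (π x.1) x.2) F ≠ 0 := by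
    intro h0
    apply hg1
    change χ g = 0
    rw [← hF]
    exact h0
  have hex : ∃ r : Fin d → SP k, (EM r m).det ≠ 0 ∧ MvPolynomial.eval (lam r m) F ≠ 0 := by
    by_contra hcon
    push Not at hcon
    exact hχF (htr F hcon)
  refine PP.mono (P_of m F hex) ?_
  rintro r ⟨h1, h2⟩
  refine ⟨bc (chi m ⟨r, h1⟩) θ, ?_, ?_⟩
  · rw [hnat, hθ]
    exact map_famC m ⟨r, h1⟩
  · change θ.1 ((Spec.map (CommRingCat.ofHom (chi m ⟨r, h1⟩).toRingHom)) (gpt k)) ∈ U
    apply hg2
    intro h3
    have h4 : chi m ⟨r, h1⟩ g = 0 := h3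
    rw [← hF, chi_mk] at h4
    exact h2 h4

theorem open_PP (hall : T_ALL.{u}) [IsAlgClosed k] [CharZero k]
    (fam : ∀ (R : Type u) [CommRing R] [Algebra k R], PtS s R → HilbFam k (SurfRing k) R d)
    (hbij : ∀ (R : Type u) [CommRing R] [Algebra k R], Function.Bijective (fam R))
    (hnat : ∀ (R R' : Type u) [CommRing R] [Algebra k R] [CommRing R'] [Algebra k R']
      (φ : R →ₐ[k] R') (f : PtS s R), (fam R' (bc φ f)).1 =
        (fam R f).1.map (Algebra.TensorProduct.map φ (AlgHom.id k (SurfRing k))).toRingHom)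
    (U : Set H) (hU : IsOpen U) (hne : U.Nonempty) :
    PP fun r : Fin d → SP k => ∃ y : PtS s k, (fam k y).1 = RingHom.ker (psiR r).toRingHom ∧
      y.1 (gpt k) ∈ U := by
  obtain ⟨h, hh⟩ := hne
  let K := AlgebraicClosure (H.residueField h)
  let x₀ : Spec (CommRingCat.of K) ⟶ H :=
    Spec.map (CommRingCat.ofHom (algebraMap (H.residueField h) K)) ≫ H.fromSpecResidueField h
  let κ : k →+* K := (Spec.preimage (x₀ ≫ s)).hom
  letI : Algebra k K := κ.toAlgebra
  have hx₀ : x₀ ≫ s = Spec.map (CommRingCat.ofHom (algebraMap k K)) := by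
    have h1 : CommRingCat.ofHom (algebraMap k K) = Spec.preimage (x₀ ≫ s) := rfl
    rw [h1, Spec.map_preimage]
  refine main_open hall fam hbij hnat U hU K ⟨x₀, hx₀⟩ ?_
  have h2 : x₀ (gpt K) = h := Scheme.fromSpecResidueField_apply h _
  rw [h2]
  exact hh

end scheme

/-- the module FUN -/
theorem fun_ : T_FUN.{u} := by
  intro hN hall k _ _ _ d _ H s hH
  obtain ⟨fam, hbij, hnat⟩ := hH
  have hdom := (hN k).1
  have hnat' : ∀ (R R' : Type u) [CommRing R] [Algebra k R] [CommRing R'] [Algebra k R']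
      (φ : R →ₐ[k] R') (f : PtS s R), (fam R' (bc φ f)).1 =
        (fam R f).1.map (Algebra.TensorProduct.map φ (AlgHom.id k (SurfRing k))).toRingHom :=
    fun R R' _ _ _ _ φ f => hnat R R' φ f (bc φ f) rfl
  have hopen := open_PP hall fam hbij hnat'
  have hpre : PreirreducibleSpace H := by
    constructor
    intro U V hU hV hU2 hV2
    rw [Set.univ_inter] at hU2 hV2 ⊢
    obtain ⟨r, ⟨y, hy1, hy2⟩, ⟨z, hz1, hz2⟩⟩ := PP.ex (PP.and hdom (hopen U hU hU2)
      (hopen V hV hV2))
    have hyz : y = z := by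
      apply (hbij k).1
      apply Subtype.ext
      rw [hy1, hz1]
    subst hyz
    exact ⟨_, hy2, hz2⟩
  have hne : Nonempty H := by
    obtain ⟨m, r, hr⟩ := exists_tuple (k := k) d
    obtain ⟨y, -⟩ := (hbij k).2 (famR m ⟨r, hr⟩)
    exact ⟨y.1 (gpt k)⟩
  exact { toPreirreducibleSpace := hpre, toNonempty := hne }

end Pool.Agent.H65.HZ.FUN
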