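import Pool.Agent.H65.HZ.TR

/-!
# Irreducibility of the space of closed points of the Hilbert scheme
-/

namespace Pool.Agent.H65.HZ.IRR

open Matrix Pool.Agent.H12.HS Pool.Agent.H65.HZ.Pts Pool.Agent.H65.HZ.TR

universe u

section
variable {k : Type u} [Field k] {d : ℕ}

/-- evaluation at a tuple of points -/
noncomputable def evm (r : Fin d → SP k) : SurfRing k →ₐ[k] (Fin d → k) :=
  AlgHom.pi fun j => evp (r j)

theorem evm_apply (r : Fin d → SP k) (a : SurfRing k) (j : Fin d) : evm r a j = evp (r j) a := rfl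

theorem evm_surj (r : Fin d → SP k) (m : Fin d → SurfRing k) (h : (EM r m).det ≠ 0) :
    Function.Surjective (evm r) := by
  intro g
  refine ⟨∑ i, ((EM r m)⁻¹ *ᵥ g) i • m i, ?_⟩
  have h1 : EM r m *ᵥ ((EM r m)⁻¹ *ᵥ g) = g := by
    rw [Matrix.mulVec_mulVec, Matrix.mul_nonsing_inv _ (isUnit_iff_ne_zero.2 h),
      Matrix.one_mulVec]
  funext j
  conv_rhs => rw [← h1]
  rw [map_sum, Finset.sum_apply]
  conv_rhs => rw [Matrix.mulVec, dotProduct]
  refine Finset.sum_congr rfl fun i _ => ?_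
  rw [map_smul, Pi.smul_apply, smul_eq_mul, mul_comm]
  rfl

/-- the ideal of a tuple of points -/
noncomputable def ptH (r : Fin d → SP k) (h : Function.Surjective (evm r)) :
    HilbPt k (SurfRing k) d :=
  ⟨RingHom.ker (evm r), by
    let e : (SurfRing k ⧸ RingHom.ker (evm r)) ≃ₐ[k] (Fin d → k) :=
      Ideal.quotientKerAlgEquivOfSurjective h
    constructor
    · exact Module.Finite.equiv e.symm.toLinearEquiv
    · rw [LinearEquiv.finrank_eq e.toLinearEquiv, Module.finrank_fin_fun]⟩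

/-- the property of open sets -/
def PO (U : Set (HilbPt k (SurfRing k) d)) : Prop :=
  PP fun r : Fin d → SP k => ∃ h : Function.Surjective (evm r), ptH r h ∈ U

theorem basic (hall : T_ALL.{u}) [IsAlgClosed k] [CharZero k] (w : Fin d → SurfRing k)
    (F : MvPolynomial (SurfRing k × Fin d) k)
    (hne : (basicOpen k (SurfRing k) d w F).Nonempty) : PO (basicOpen k (SurfRing k) d w F) := by
  obtain ⟨I, c, hc, hF⟩ := hne
  have hfin : Module.Finite k (SurfRing k ⧸ I.1) := I.2.1
  have hrank : Module.finrank k (SurfRing k ⧸ I.1) = d := I.2.2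
  have hex : ∃ r : Fin d → SP k, (EM r w).det ≠ 0 ∧ MvPolynomial.eval (lam r w) F ≠ 0 := by
    by_contra hcon
    push Not at hcon
    let π : SurfRing k →+* (SurfRing k ⧸ I.1) := Ideal.Quotient.mk I.1
    have hmod : ∀ a, π a = ∑ i, c (a, i) • π (w i) := by
      intro a
      have h1 := Ideal.Quotient.eq_zero_iff_mem.2 (hc a)
      rw [map_sub, sub_eq_zero, map_sum] at h1
      exact h1
    have hsp : ⊤ ≤ Submodule.span k (Set.range fun i => π (w i)) := by
      intro x _
      obtain ⟨a, rfl⟩ := Ideal.Quotient.mk_surjective x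
      change π a ∈ _
      rw [hmod a]
      exact Submodule.sum_mem _ fun i _ => Submodule.smul_mem _ _ (Submodule.subset_span ⟨i, rfl⟩)
    let bas : Module.Basis (Fin d) k (SurfRing k ⧸ I.1) :=
      basisOfTopLeSpanOfCardEqFinrank (fun i => π (w i)) hsp (by rw [Fintype.card_fin, hrank])
    have hbas : ∀ i, bas i = π (w i) := fun i => by
      rw [coe_basisOfTopLeSpanOfCardEqFinrank]
    have hall' := tr hall (RingHom.id k) (SurfRing k ⧸ I.1) π (fun c => rfl) (by
      rw [eq_top_iff]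
      intro x _
      obtain ⟨a, rfl⟩ := Ideal.Quotient.mk_surjective x
      exact Submodule.subset_span ⟨a, rfl⟩) w bas hbas F hcon
    apply hF
    have hcc : (fun x : SurfRing k × Fin d => bas.repr (π x.1) x.2) = c := by
      funext x
      have h1 : π x.1 = ∑ i, c (x.1, i) • bas i := by
        rw [hmod x.1]
        exact Finset.sum_congr rfl fun i _ => by rw [hbas]
      rw [h1, Module.Basis.repr_sum_self]
    rw [hcc] at hall'
    exact hall'
  refine PP.mono (P_of w F hex) ?_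
  rintro r ⟨h1, h2⟩
  refine ⟨evm_surj r w h1, lam r w, ?_, h2⟩
  intro a
  change a - ∑ i, lam r w (a, i) • w i ∈ RingHom.ker (evm r)
  rw [RingHom.mem_ker]
  funext j
  rw [map_sub, map_sum, Pi.sub_apply, Finset.sum_apply, evm_apply, lam_spec r w h1 a j,
    Pi.zero_apply, sub_eq_zero]
  refine Finset.sum_congr rfl fun i _ => ?_
  rw [map_smul, Pi.smul_apply, smul_eq_mul, evm_apply]

theorem univ_PO [CharZero k] : PO (Set.univ : Set (HilbPt k (SurfRing k) d)) := by
  obtain ⟨m, r, hr⟩ := exists_tuple (k := k) d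
  refine PP.mono (P_of m 1 ⟨r, hr, ?_⟩) ?_
  · rw [map_one]; exact one_ne_zero
  · rintro s ⟨h1, -⟩
    exact ⟨evm_surj s m h1, trivial⟩

theorem open_PO (hN : IsDomain (SurfRing k)) (hall : T_ALL.{u}) [IsAlgClosed k] [CharZero k]
    (U : Set (HilbPt k (SurfRing k) d)) (hU : IsOpen U) : U.Nonempty → PO U := by
  change TopologicalSpace.GenerateOpen _ U at hU
  induction hU with
  | basic s hs =>
    obtain ⟨w, F, rfl⟩ := hs
    exact basic hall w F
  | univ => intro _; exact univ_PO
  | inter s t _ _ hs ht =>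
    rintro ⟨x, hx⟩
    refine (PP.and hN (hs ⟨x, hx.1⟩) (ht ⟨x, hx.2⟩)).mono ?_
    rintro r ⟨⟨h1, h2⟩, ⟨h3, h4⟩⟩
    exact ⟨h1, h2, h4⟩
  | sUnion S _ hS =>
    rintro ⟨x, t, ht, hx⟩
    refine (hS t ht ⟨x, hx⟩).mono ?_
    rintro r ⟨h1, h2⟩
    exact ⟨h1, t, ht, h2⟩

end

/-- the module IRR -/
theorem irr : T_IRR.{u} := by
  intro hN hall k _ _ _ d _
  have hdom := (hN k).1
  have hne : Nonempty (HilbPt k (SurfRing k) d) := by
    obtain ⟨r, h1, -⟩ := PP.ex (univ_PO (k := k) (d := d))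
    exact ⟨ptH r h1⟩
  have hpre : PreirreducibleSpace (HilbPt k (SurfRing k) d) := by
    constructor
    intro U V hU hV hU2 hV2
    rw [Set.univ_inter] at hU2 hV2
    obtain ⟨r, ⟨h1, h2⟩, h3, h4⟩ := PP.ex (PP.and hdom (open_PO hdom hall U hU hU2)
      (open_PO hdom hall V hV hV2))
    rw [Set.univ_inter]
    exact ⟨ptH r h1, h2, h4⟩
  exact { toPreirreducibleSpace := hpre, toNonempty := hne }

end Pool.Agent.H65.HZ.IRR
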