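import Pool.Agent.H65.HZ.Tan

/-!
# The origin is not a du Val singularity
-/

namespace Pool.Agent.H65.HZ.NDV

open Pool.Agent.H12.HS Pool.Agent.H65.HZ Pool.Agent.H65.HZ.Tan

universe u

section series
variable (k : Type u) [Field k]

/-- power series in three variables -/
abbrev P3 : Type u := MvPowerSeries (Fin 3) k

variable {k}

theorem decomp (F : P3 k) (hF : MvPowerSeries.constantCoeff F = 0) :
    ∃ G : Fin 3 → P3 k, F = ∑ i, MvPowerSeries.X i * G i := by
  classical
  let F0 : P3 k := fun m => if m 0 = 0 then MvPowerSeries.coeff m F else 0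
  let F1 : P3 k := fun m => if m 0 = 0 ∧ m 1 = 0 then MvPowerSeries.coeff m F else 0
  have c0 : ∀ m, MvPowerSeries.coeff m F0 = if m 0 = 0 then MvPowerSeries.coeff m F else 0 :=
    fun m => rfl
  have c1 : ∀ m, MvPowerSeries.coeff m F1 =
      if m 0 = 0 ∧ m 1 = 0 then MvPowerSeries.coeff m F else 0 := fun m => rfl
  have h0 : MvPowerSeries.X 0 ∣ F - F0 := by
    rw [MvPowerSeries.X_dvd_iff]
    intro m hm
    rw [map_sub, c0, if_pos hm, sub_self]
  have h1 : MvPowerSeries.X 1 ∣ F0 - F1 := by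
    rw [MvPowerSeries.X_dvd_iff]
    intro m hm
    rw [map_sub, c0, c1]
    by_cases h : m 0 = 0
    · rw [if_pos h, if_pos ⟨h, hm⟩, sub_self]
    · rw [if_neg h, if_neg (fun h' => h h'.1), sub_self]
  have h2 : MvPowerSeries.X 2 ∣ F1 := by
    rw [MvPowerSeries.X_dvd_iff]
    intro m hm
    rw [c1]
    by_cases h : m 0 = 0 ∧ m 1 = 0
    · rw [if_pos h]
      have : m = 0 := by
        ext i
        fin_cases i
        · exact h.1
        · exact h.2
        · exact hm
      rw [this, MvPowerSeries.coeff_zero_eq_constantCoeff_apply, hF]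
    · rw [if_neg h]
  obtain ⟨G0, e0⟩ := h0
  obtain ⟨G1, e1⟩ := h1
  obtain ⟨G2, e2⟩ := h2
  refine ⟨![G0, G1, G2], ?_⟩
  rw [Fin.sum_univ_three]
  simp only [Matrix.cons_val_zero, Matrix.cons_val_one, Matrix.cons_val]
  rw [← e0, ← e1, ← e2]
  ring

theorem hs (c : Fin 3 → k) : MvPowerSeries.HasSubst (S := k)
    (fun i => (PowerSeries.C (c i) * PowerSeries.X : PowerSeries k) : Fin 3 → MvPowerSeries Unit k) := by
  apply MvPowerSeries.hasSubst_of_constantCoeff_zero
  intro i
  change PowerSeries.constantCoeff (PowerSeries.C (c i) * PowerSeries.X) = 0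
  simp

/-- restriction to the line `t ↦ c t` -/
noncomputable def sig (c : Fin 3 → k) : P3 k →ₐ[k] PowerSeries k :=
  MvPowerSeries.substAlgHom (hs c)

theorem sig_X (c : Fin 3 → k) (i : Fin 3) :
    sig c (MvPowerSeries.X i) = PowerSeries.C (c i) * PowerSeries.X := by
  rw [sig, MvPowerSeries.substAlgHom_X]

theorem sig_zero (c : Fin 3 → k) (F : P3 k) (hF : MvPowerSeries.constantCoeff F = 0) :
    ∃ U, sig c F = PowerSeries.X * U := by
  obtain ⟨G, rfl⟩ := decomp F hF
  refine ⟨∑ i, PowerSeries.C (c i) * sig c (G i), ?_⟩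
  rw [map_sum, Finset.mul_sum]
  refine Finset.sum_congr rfl fun i _ => ?_
  rw [map_mul, sig_X]
  ring

theorem cc_sig (c : Fin 3 → k) (F : P3 k) :
    PowerSeries.constantCoeff (sig c F) = MvPowerSeries.constantCoeff F := by
  have h : MvPowerSeries.constantCoeff (F - algebraMap k (P3 k) (MvPowerSeries.constantCoeff F)) = 0 := by
    rw [map_sub, sub_eq_zero]
    rfl
  obtain ⟨U, hU⟩ := sig_zero c _ h
  rw [map_sub, AlgHom.commutes, sub_eq_iff_eq_add] at hU
  rw [hU, map_add, map_mul, PowerSeries.constantCoeff_X, zero_mul, zero_add]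
  rfl

/-- comparison of the terms of degree two -/
theorem deg2 (W X' Y' h f : P3 k) (hX : MvPowerSeries.constantCoeff X' = 0)
    (hY : MvPowerSeries.constantCoeff Y' = 0) (G : Fin 3 → P3 k)
    (hG : W = ∑ i, MvPowerSeries.X i * G i)
    (he : W ^ 2 = X' ^ 4 + Y' ^ 4 + h * f) (c : Fin 3 → k) (P : PowerSeries k)
    (hP : sig c f = PowerSeries.X ^ 2 * P) :
    (∑ i, c i * MvPowerSeries.constantCoeff (G i)) ^ 2 =
      MvPowerSeries.constantCoeff h * PowerSeries.constantCoeff P := by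
  obtain ⟨U, hU⟩ := sig_zero c X' hX
  obtain ⟨V, hV⟩ := sig_zero c Y' hY
  have hW : sig c W = PowerSeries.X * ∑ i, PowerSeries.C (c i) * sig c (G i) := by
    rw [hG, map_sum, Finset.mul_sum]
    refine Finset.sum_congr rfl fun i _ => ?_
    rw [map_mul, sig_X]
    ring
  have h1 := congrArg (sig c) he
  rw [map_pow, map_add, map_add, map_pow, map_pow, map_mul, hU, hV, hW, hP] at h1
  have h2 : (PowerSeries.X : PowerSeries k) ^ 2 * (∑ i, PowerSeries.C (c i) * sig c (G i)) ^ 2 =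
      PowerSeries.X ^ 2 * (PowerSeries.X ^ 2 * (U ^ 4 + V ^ 4) + sig c h * P) := by
    rw [← mul_pow, h1]; ring
  have h3 := mul_left_cancel₀ (pow_ne_zero 2 PowerSeries.X_ne_zero) h2
  have h4 := congrArg PowerSeries.constantCoeff h3
  rw [map_pow, map_sum, map_add, map_mul, map_mul, map_pow, PowerSeries.constantCoeff_X,
    zero_pow two_ne_zero, zero_mul, zero_add, cc_sig] at h4
  rw [← h4]
  congr 1
  refine Finset.sum_congr rfl fun i _ => ?_
  rw [map_mul, cc_sig, PowerSeries.constantCoeff_C]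

/-- comparison of the terms of degree three -/
theorem deg3 (W X' Y' h f : P3 k) (hX : MvPowerSeries.constantCoeff X' = 0)
    (hY : MvPowerSeries.constantCoeff Y' = 0) (G : Fin 3 → P3 k)
    (hG : W = ∑ i, MvPowerSeries.X i * G i)
    (he : W ^ 2 = X' ^ 4 + Y' ^ 4 + h * f) (c : Fin 3 → k) (Q : PowerSeries k)
    (hQ : sig c f = PowerSeries.X ^ 3 * Q)
    (hc : ∑ i, c i * MvPowerSeries.constantCoeff (G i) = 0) :
    MvPowerSeries.constantCoeff h * PowerSeries.constantCoeff Q = 0 := by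
  obtain ⟨U, hU⟩ := sig_zero c X' hX
  obtain ⟨V, hV⟩ := sig_zero c Y' hY
  have hW : sig c W = PowerSeries.X * ∑ i, PowerSeries.C (c i) * sig c (G i) := by
    rw [hG, map_sum, Finset.mul_sum]
    refine Finset.sum_congr rfl fun i _ => ?_
    rw [map_mul, sig_X]
    ring
  have hc' : PowerSeries.constantCoeff (∑ i, PowerSeries.C (c i) * sig c (G i)) = 0 := by
    rw [map_sum, ← hc]
    refine Finset.sum_congr rfl fun i _ => ?_
    rw [map_mul, cc_sig, PowerSeries.constantCoeff_C]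
  obtain ⟨Z, hZ⟩ := PowerSeries.X_dvd_iff.2 hc'
  rw [hZ] at hW
  have h1 := congrArg (sig c) he
  rw [map_pow, map_add, map_add, map_pow, map_pow, map_mul, hU, hV, hW, hQ] at h1
  have h2 : (PowerSeries.X : PowerSeries k) ^ 3 * (PowerSeries.X * (Z ^ 2 - U ^ 4 - V ^ 4)) =
      PowerSeries.X ^ 3 * (sig c h * Q) := by
    linear_combination h1
  have h3 := mul_left_cancel₀ (pow_ne_zero 3 PowerSeries.X_ne_zero) h2
  have h4 := congrArg PowerSeries.constantCoeff h3
  rw [map_mul, map_mul, PowerSeries.constantCoeff_X, zero_mul, cc_sig] at h4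
  exact h4.symm

theorem caseA [CharZero k] (l : Fin 3 → k) (h0 : k) (q : (Fin 3 → k) → k)
    (hl : ∀ c : Fin 3 → k, (∑ i, c i * l i) ^ 2 = h0 * q c)
    (q1 : q ![1, 0, 0] = 1) (q2 : q ![0, 1, 0] = 1) (q3 : q ![1, 1, 0] = 2) (i : Fin 3) :
    l i = 0 := by
  have e1 := hl ![1, 0, 0]
  have e2 := hl ![0, 1, 0]
  have e3 := hl ![1, 1, 0]
  have e4 := hl ![0, 0, 1]
  rw [Fin.sum_univ_three] at e1 e2 e3 e4
  rw [q1] at e1
  rw [q2] at e2
  rw [q3] at e3
  simp only [Matrix.cons_val_zero, Matrix.cons_val_one, Matrix.cons_val, one_mul, zero_mul,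
    add_zero, zero_add, mul_one] at e1 e2 e3 e4
  have e5 : l 0 * l 1 = 0 := by
    have : 2 * (l 0 * l 1) = 0 := by linear_combination e3 - e1 - e2
    exact (mul_eq_zero.1 this).resolve_left two_ne_zero
  have e6 : h0 = 0 := by
    have : h0 ^ 2 = 0 := by
      calc h0 ^ 2 = h0 * h0 := sq _
        _ = l 0 ^ 2 * l 1 ^ 2 := by rw [e1, e2]
        _ = (l 0 * l 1) ^ 2 := by ring
        _ = 0 := by rw [e5]; ring
    exact (pow_eq_zero_iff two_ne_zero).1 this
  rw [e6] at e1 e2 e4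
  rw [zero_mul] at e4
  rw [pow_eq_zero_iff two_ne_zero] at e1 e2 e4
  fin_cases i
  · exact e1
  · exact e2
  · exact e4

theorem caseDE (l : Fin 3 → k) (h0 : k)
    (hl : ∀ c : Fin 3 → k, (∑ i, c i * l i) ^ 2 = h0 * (c 0) ^ 2)
    (h3 : l 1 = 0 → l 2 = 0 → h0 = 0) (i : Fin 3) :
    l i = 0 := by
  have e1 := hl ![1, 0, 0]
  have e2 := hl ![0, 1, 0]
  have e4 := hl ![0, 0, 1]
  rw [Fin.sum_univ_three] at e1 e2 e4
  simp only [Matrix.cons_val_zero, Matrix.cons_val_one, Matrix.cons_val, one_mul, zero_mul,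
    add_zero, zero_add, mul_one, ne_eq, OfNat.ofNat_ne_zero, not_false_eq_true, zero_pow,
    mul_zero, one_pow, pow_eq_zero_iff] at e1 e2 e4
  rw [h3 e2 e4] at e1
  rw [pow_eq_zero_iff two_ne_zero] at e1
  fin_cases i
  · exact e1
  · exact e2
  · exact e4

theorem sig_X' (c : Fin 3 → k) (i : Fin 3) :
    sig c (MvPowerSeries.X i) = c i • PowerSeries.X := by
  rw [sig_X, PowerSeries.smul_eq_C_mul]

theorem key [CharZero k] (W X' Y' h f : P3 k) (hX : MvPowerSeries.constantCoeff X' = 0)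
    (hY : MvPowerSeries.constantCoeff Y' = 0) (G : Fin 3 → P3 k)
    (hG : W = ∑ i, MvPowerSeries.X i * G i)
    (he : W ^ 2 = X' ^ 4 + Y' ^ 4 + h * f) (hf : IsDuValEquation k f) (i : Fin 3) :
    MvPowerSeries.constantCoeff (G i) = 0 := by
  have d2 := deg2 W X' Y' h f hX hY G hG he
  have d3 := deg3 W X' Y' h f hX hY G hG he
  have hDE : (∀ c : Fin 3 → k, ∃ P, sig c f = PowerSeries.X ^ 2 * P ∧
      PowerSeries.constantCoeff P = (c 0) ^ 2) →
      (∃ c : Fin 3 → k, c 0 = 0 ∧ ∃ Q, sig c f = PowerSeries.X ^ 3 * Q ∧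
        PowerSeries.constantCoeff Q ≠ 0) → MvPowerSeries.constantCoeff (G i) = 0 := by
    intro hP hQ
    refine caseDE (fun i => MvPowerSeries.constantCoeff (G i)) (MvPowerSeries.constantCoeff h)
      ?_ ?_ i
    · intro c
      obtain ⟨P, hP1, hP2⟩ := hP c
      rw [d2 c P hP1, hP2]
    · intro h1 h2
      obtain ⟨c, hc, Q, hQ1, hQ2⟩ := hQ
      have := d3 c Q hQ1 (by
        rw [Fin.sum_univ_three, hc, h1, h2]; ring)
      exact (mul_eq_zero.1 this).resolve_right hQ2
  cases hf with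
  | A n hn =>
    have hP : ∀ c : Fin 3 → k, sig c (MvPowerSeries.X 0 ^ 2 + MvPowerSeries.X 1 ^ 2 +
        MvPowerSeries.X 2 ^ (n + 1)) = PowerSeries.X ^ 2 *
        (PowerSeries.C (c 0 ^ 2 + c 1 ^ 2) + PowerSeries.C (c 2 ^ (n + 1)) *
          PowerSeries.X ^ (n - 1)) := by
      intro c
      obtain ⟨m, rfl⟩ : ∃ m, n = m + 1 := ⟨n - 1, by omega⟩
      simp only [map_add, map_pow, sig_X, Nat.add_sub_cancel]
      ring
    refine caseA (fun i => MvPowerSeries.constantCoeff (G i)) (MvPowerSeries.constantCoeff h)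
      (fun c => PowerSeries.constantCoeff (PowerSeries.C (c 0 ^ 2 + c 1 ^ 2) +
        PowerSeries.C (c 2 ^ (n + 1)) * PowerSeries.X ^ (n - 1)))
      (fun c => d2 c _ (hP c)) ?_ ?_ ?_ i
    · simp
    · simp
    · simp
      norm_num
  | D n hn =>
    refine hDE ?_ ?_
    · intro c
      refine ⟨PowerSeries.C (c 0 ^ 2) + PowerSeries.X * (PowerSeries.C (c 1 ^ 2 * c 2) +
        PowerSeries.C (c 2 ^ (n - 1)) * PowerSeries.X ^ (n - 4)), ?_, ?_⟩
      · obtain ⟨m, rfl⟩ : ∃ m, n = m + 4 := ⟨n - 4, by omega⟩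
        simp only [map_add, map_mul, map_pow, sig_X, Nat.add_sub_cancel,
          show m + 4 - 1 = m + 3 by omega]
        ring
      · simp
    · refine ⟨![0, 1, 1], rfl, 1 + PowerSeries.X ^ (n - 4), ?_, ?_⟩
      · obtain ⟨m, rfl⟩ : ∃ m, n = m + 4 := ⟨n - 4, by omega⟩
        simp only [map_add, map_mul, map_pow, sig_X, Nat.add_sub_cancel,
          show m + 4 - 1 = m + 3 by omega, Matrix.cons_val_zero, Matrix.cons_val_one,
          Matrix.cons_val, map_zero, map_one]
        ring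
      · rw [map_add, map_one, map_pow, PowerSeries.constantCoeff_X]
        rcases Nat.eq_zero_or_pos (n - 4) with h4 | h4
        · rw [h4, pow_zero]; norm_num
        · rw [zero_pow h4.ne', add_zero]; exact one_ne_zero
  | E6 =>
    refine hDE ?_ ?_
    · intro c
      refine ⟨PowerSeries.C (c 0 ^ 2) + PowerSeries.X * (PowerSeries.C (c 1 ^ 3) +
        PowerSeries.C (c 2 ^ 4) * PowerSeries.X), ?_, ?_⟩
      · simp only [map_add, map_mul, map_pow, sig_X]
        ring
      · simp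
    · refine ⟨![0, 1, 0], rfl, 1, ?_, ?_⟩
      · simp only [map_add, map_mul, map_pow, sig_X, Matrix.cons_val_zero, Matrix.cons_val_one,
          Matrix.cons_val, map_zero, map_one]
        ring
      · rw [map_one]; exact one_ne_zero
  | E7 =>
    refine hDE ?_ ?_
    · intro c
      refine ⟨PowerSeries.C (c 0 ^ 2) + PowerSeries.X * (PowerSeries.C (c 1 ^ 3) +
        PowerSeries.C (c 1 * c 2 ^ 3) * PowerSeries.X), ?_, ?_⟩
      · simp only [map_add, map_mul, map_pow, sig_X]
        ring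
      · simp
    · refine ⟨![0, 1, 0], rfl, 1, ?_, ?_⟩
      · simp only [map_add, map_mul, map_pow, sig_X, Matrix.cons_val_zero, Matrix.cons_val_one,
          Matrix.cons_val, map_zero, map_one]
        ring
      · rw [map_one]; exact one_ne_zero
  | E8 =>
    refine hDE ?_ ?_
    · intro c
      refine ⟨PowerSeries.C (c 0 ^ 2) + PowerSeries.X * (PowerSeries.C (c 1 ^ 3) +
        PowerSeries.C (c 2 ^ 5) * PowerSeries.X ^ 2), ?_, ?_⟩
      · simp only [map_add, map_mul, map_pow, sig_X]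
        ring
      · simp
    · refine ⟨![0, 1, 0], rfl, 1, ?_, ?_⟩
      · simp only [map_add, map_mul, map_pow, sig_X, Matrix.cons_val_zero, Matrix.cons_val_one,
          Matrix.cons_val, map_zero, map_one]
        ring
      · rw [map_one]; exact one_ne_zero

theorem duval_cc (f : P3 k) (hf : IsDuValEquation k f) : MvPowerSeries.constantCoeff f = 0 := by
  cases hf with
  | A n hn => simp
  | D n hn =>
    obtain ⟨m, rfl⟩ : ∃ m, n = m + 4 := ⟨n - 4, by omega⟩
    simp [show m + 4 - 1 = m + 3 by omega]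
  | E6 => simp
  | E7 => simp
  | E8 => simp

end series

theorem comp_lift {L T : Type u} [CommRing L] [CommRing T] (I : Ideal L) (τ : L →+* T)
    (h : I ^ 2 ≤ RingHom.ker τ) :
    ∃ θ : AdicCompletion I L →+* T, ∀ x, θ (algebraMap L (AdicCompletion I L) x) = τ x := by
  refine ⟨(Ideal.Quotient.lift (I ^ 2) τ fun a ha => h ha).comp
    (AdicCompletion.evalₐ I 2).toRingHom, fun x => ?_⟩
  have h1 : AdicCompletion.evalₐ I 2 (algebraMap L (AdicCompletion I L) x) =
      Ideal.Quotient.mk _ x := by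
    rw [AdicCompletion.algebraMap_apply, AdicCompletion.evalₐ_of]
    rfl
  rw [RingHom.comp_apply]
  change Ideal.Quotient.lift (I ^ 2) τ _ (AdicCompletion.evalₐ I 2 _) = _
  rw [h1, Ideal.Quotient.lift_mk]

theorem ker_tau {k L : Type u} [Field k] [CommRing L] [IsLocalRing L] (τ : L →+* TT k)
    (hτ : ∀ s ∈ IsLocalRing.maximalIdeal L, (τ s).fst = 0) :
    IsLocalRing.maximalIdeal L ^ 2 ≤ RingHom.ker τ := by
  rw [pow_two, Ideal.mul_le]
  intro x hx y hy
  rw [RingHom.mem_ker, map_mul]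
  have h1 := hτ x hx
  have h2 := hτ y hy
  apply TrivSqZeroExt.ext
  · rw [TrivSqZeroExt.fst_mul, h1, zero_mul]; rfl
  · rw [TrivSqZeroExt.snd_mul, h1, h2]; simp

/-- the abstract argument -/
theorem absurd_of {k O : Type u} [Field k] [CharZero k] [CommRing O] (θ : O →+* TT k)
    (hθ : Function.Surjective θ)
    (x y z : O) (hx : (θ x).fst = 0) (hy : (θ y).fst = 0) (hz : (θ z).fst = 0) (hz1 : θ z ≠ 0)
    (hr : z ^ 2 = x ^ 4 + y ^ 4) (f : P3 k) (hf : IsDuValEquation k f)
    (e : O ≃+* (P3 k ⧸ Ideal.span {f})) : False := by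
  have hf0 := duval_cc f hf
  have hnt : Nontrivial (P3 k ⧸ Ideal.span {f}) := by
    apply Ideal.Quotient.nontrivial_iff.2
    rw [Ne, Ideal.span_singleton_eq_top, MvPowerSeries.isUnit_iff_constantCoeff, hf0]
    exact not_isUnit_zero
  have hloc : IsLocalRing (P3 k ⧸ Ideal.span {f}) :=
    IsLocalRing.of_surjective' (Ideal.Quotient.mk (Ideal.span {f})) Ideal.Quotient.mk_surjective
  have hlocO : IsLocalRing O := e.symm.isLocalRing
  have hmax : RingHom.ker ((TrivSqZeroExt.fstHom k k (Fin 3 → k)).toRingHom.comp θ) =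
      IsLocalRing.maximalIdeal O := by
    apply IsLocalRing.eq_maximalIdeal
    apply RingHom.ker_isMaximal_of_surjective
    intro c
    obtain ⟨o, ho⟩ := hθ (TrivSqZeroExt.inl c)
    exact ⟨o, by rw [RingHom.comp_apply, ho]; rfl⟩
  have hfst : ∀ o : O, (θ o).fst = 0 ↔ ¬ IsUnit o := by
    intro o
    have : o ∈ RingHom.ker ((TrivSqZeroExt.fstHom k k (Fin 3 → k)).toRingHom.comp θ) ↔
      o ∈ IsLocalRing.maximalIdeal O := by rw [hmax]
    exact this
  have hmk : ∀ F : P3 k, MvPowerSeries.constantCoeff F = 0 ↔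
      (θ (e.symm (Ideal.Quotient.mk _ F))).fst = 0 := by
    intro F
    rw [hfst, isUnit_map_iff e.symm]
    constructor
    · intro hF hu
      obtain ⟨v, hv⟩ := hu.exists_right_inv
      obtain ⟨V, rfl⟩ := Ideal.Quotient.mk_surjective v
      rw [← map_mul, ← map_one (Ideal.Quotient.mk (Ideal.span {f})), Ideal.Quotient.eq,
        Ideal.mem_span_singleton] at hv
      obtain ⟨w, hw⟩ := hv
      have := congrArg MvPowerSeries.constantCoeff hw
      rw [map_sub, map_mul, map_mul, hF, hf0, map_one] at this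
      simp at this
    · intro hu
      by_contra hF
      apply hu
      have : IsUnit F := by
        rw [MvPowerSeries.isUnit_iff_constantCoeff, isUnit_iff_ne_zero]
        exact hF
      exact this.map _
  obtain ⟨X', hX'⟩ := Ideal.Quotient.mk_surjective (e x)
  obtain ⟨Y', hY'⟩ := Ideal.Quotient.mk_surjective (e y)
  obtain ⟨W, hW⟩ := Ideal.Quotient.mk_surjective (e z)
  have cX : MvPowerSeries.constantCoeff X' = 0 := by
    rw [hmk, hX', e.symm_apply_apply]; exact hx
  have cY : MvPowerSeries.constantCoeff Y' = 0 := by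
    rw [hmk, hY', e.symm_apply_apply]; exact hy
  have cW : MvPowerSeries.constantCoeff W = 0 := by
    rw [hmk, hW, e.symm_apply_apply]; exact hz
  obtain ⟨G, hG⟩ := decomp W cW
  have hrel : ∃ h, W ^ 2 = X' ^ 4 + Y' ^ 4 + h * f := by
    have h1 : (Ideal.Quotient.mk (Ideal.span {f})) (W ^ 2) =
        Ideal.Quotient.mk _ (X' ^ 4 + Y' ^ 4) := by
      rw [map_pow, map_add, map_pow, map_pow, hW, hX', hY', ← map_pow, hr, map_add, map_pow, map_pow]
    rw [Ideal.Quotient.eq, Ideal.mem_span_singleton] at h1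
    obtain ⟨h, hh⟩ := h1
    exact ⟨h, by linear_combination hh⟩
  obtain ⟨h, hh⟩ := hrel
  have hG0 := key W X' Y' h f cX cY G hG hh hf
  apply hz1
  have h2 : z = ∑ i, e.symm (Ideal.Quotient.mk _ (MvPowerSeries.X i)) *
      e.symm (Ideal.Quotient.mk _ (G i)) := by
    rw [← e.symm_apply_apply z, ← hW, hG, map_sum, map_sum]
    refine Finset.sum_congr rfl fun i _ => ?_
    rw [map_mul, map_mul]
  rw [h2, map_sum]
  refine Finset.sum_eq_zero fun i _ => ?_
  have h3 := (hmk (MvPowerSeries.X i)).1 (MvPowerSeries.constantCoeff_X i)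
  have h4 := (hmk (G i)).1 (hG0 i)
  rw [map_mul]
  apply TrivSqZeroExt.ext
  · rw [TrivSqZeroExt.fst_mul, h3, zero_mul]; rfl
  · rw [TrivSqZeroExt.snd_mul, h3, h4]; simp

/-- the local version -/
theorem nodv_local {k L : Type u} [Field k] [CharZero k] [CommRing L] [IsLocalRing L]
    (τ : L →+* TT k) (hτ : ∀ s ∈ IsLocalRing.maximalIdeal L, (τ s).fst = 0)
    (hsurj : Function.Surjective τ) (x y z : L) (hx : (τ x).fst = 0) (hy : (τ y).fst = 0)
    (hz : (τ z).fst = 0) (hz1 : τ z ≠ 0) (hr : z ^ 2 = x ^ 4 + y ^ 4) :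
    ¬ IsDuVal k (AdicCompletion (IsLocalRing.maximalIdeal L) L) := by
  rintro ⟨f, hf, ⟨e⟩⟩
  obtain ⟨θ, hθ⟩ := comp_lift _ τ (ker_tau τ hτ)
  refine absurd_of θ ?_ (algebraMap L _ x) (algebraMap L _ y) (algebraMap L _ z)
    (by rw [hθ]; exact hx) (by rw [hθ]; exact hy) (by rw [hθ]; exact hz)
    (by rw [hθ]; exact hz1) ?_ f hf e
  · intro t
    obtain ⟨l, hl⟩ := hsurj t
    exact ⟨algebraMap L _ l, by rw [hθ, hl]⟩
  · rw [← map_pow, hr, map_add, map_pow, map_pow]

section main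

variable (k : Type u) [Field k]

theorem tau0_surj : Function.Surjective (tau0 k) := by
  intro t
  refine ⟨algebraMap k _ t.fst + ∑ i, algebraMap k _ (t.snd i) *
    Ideal.Quotient.mk _ (MvPolynomial.X i), ?_⟩
  rw [map_add, map_sum]
  simp only [map_mul, AlgHom.commutes, tau0_X]
  have h : ∀ i : Fin 3, algebraMap k (TT k) (t.snd i) * TrivSqZeroExt.inr (Pi.single i 1) =
      TrivSqZeroExt.inr (Pi.single i (t.snd i)) := by
    intro i
    rw [TrivSqZeroExt.algebraMap_eq_inl, TrivSqZeroExt.inl_mul_inr]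
    congr 1
    ext j
    rw [Pi.smul_apply, smul_eq_mul]
    by_cases hj : j = i
    · subst hj; simp
    · simp [Pi.single_eq_of_ne hj]
  rw [Finset.sum_congr rfl fun i _ => h i, TrivSqZeroExt.algebraMap_eq_inl]
  rw [← TrivSqZeroExt.inr_sum, Finset.univ_sum_single, TrivSqZeroExt.inl_fst_add_inr_snd_eq]

theorem rel_surf : (Ideal.Quotient.mk _ (MvPolynomial.X 2) : SurfRing k) ^ 2 =
    Ideal.Quotient.mk _ (MvPolynomial.X 0) ^ 4 + Ideal.Quotient.mk _ (MvPolynomial.X 1) ^ 4 := by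
  rw [← map_pow, ← map_pow, ← map_pow, ← map_add, Ideal.Quotient.eq]
  exact Ideal.subset_span rfl

end main

/-- the module NDV -/
theorem ndv : T_NDV.{u} := by
  intro k _ _ _ _
  have h : ∀ s, tau k (algebraMap (SurfRing k) (LL k) s) = tau0 k s := tau_alg k
  refine nodv_local (L := LL k) (tau k) (tau_fst k) ?_
    (algebraMap (SurfRing k) (LL k) (Ideal.Quotient.mk _ (MvPolynomial.X 0)))
    (algebraMap (SurfRing k) (LL k) (Ideal.Quotient.mk _ (MvPolynomial.X 1)))
    (algebraMap (SurfRing k) (LL k) (Ideal.Quotient.mk _ (MvPolynomial.X 2)))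
    ?_ ?_ ?_ ?_ ?_
  · intro t
    obtain ⟨s, hs⟩ := tau0_surj k t
    exact ⟨algebraMap _ _ s, by rw [h, hs]⟩
  · rw [h, tau0_X]; rfl
  · rw [h, tau0_X]; rfl
  · rw [h, tau0_X]; rfl
  · rw [h, tau0_X]
    intro h0
    have := congrArg (fun t : TT k => t.snd 2) h0
    simp at this
  · have := congrArg (algebraMap (SurfRing k) (LL k)) (rel_surf k)
    rw [map_pow, map_add, map_pow, map_pow] at this
    exact this

end Pool.Agent.H65.HZ.NDV
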