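import Pool.Agent.H65.HZ.Iso

/-!
# The surface is integral and normal
-/

namespace Pool.Agent.H65.HZ.NORM

open MvPolynomial Pool.Agent.H12.HS Pool.Agent.H65.HZ

universe u

section general

variable {R : Type u} [CommRing R] [IsDomain R] [UniqueFactorizationMonoid R]

theorem sq_dvd (g : R) (hg : Squarefree g) (hg0 : g ≠ 0) (n b : R) (h : n ^ 2 ∣ g * b ^ 2) :
    n ∣ b := by
  by_cases hn : n = 0
  · subst hn
    rw [zero_pow two_ne_zero, zero_dvd_iff, mul_eq_zero] at h
    rcases h with h | h
    · exact absurd h hg0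
    · rw [pow_eq_zero_iff two_ne_zero] at h
      rw [h]
  · obtain ⟨b', n', c, hrel, hb, hnn⟩ := UniqueFactorizationMonoid.exists_reduced_factors' b n hn
    have hc : c ≠ 0 := by
      rintro rfl
      exact hn (by rw [← hnn, zero_mul])
    have h1 : n' ^ 2 ∣ g * b' ^ 2 := by
      rw [← hb, ← hnn] at h
      have h2 : c ^ 2 * n' ^ 2 ∣ c ^ 2 * (g * b' ^ 2) := by
        convert h using 1 <;> ring
      exact (mul_dvd_mul_iff_left (pow_ne_zero 2 hc)).1 h2
    have h2 : IsRelPrime (n' ^ 2) (b' ^ 2) := (hrel.symm.pow_left).pow_right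
    have h3 : n' ^ 2 ∣ g := h2.dvd_of_dvd_mul_right h1
    have h4 : IsUnit n' := hg n' (by rw [← sq]; exact h3)
    rw [← hb, ← hnn]
    exact mul_dvd_mul_left c (h4.dvd)

theorem nonsq (g : R) (hg : Squarefree g) (hgu : ¬ IsUnit g) (p q : R) (h : p ^ 2 = g * q ^ 2) :
    q = 0 := by
  by_contra hq
  have h1 : q ^ 2 ∣ p ^ 2 := ⟨g, by rw [h]; ring⟩
  have h2 : q ∣ p := (UniqueFactorizationMonoid.pow_dvd_pow_iff_dvd two_ne_zero).1 h1
  obtain ⟨r, rfl⟩ := h2
  have h3 : g = r * r := by
    have : q ^ 2 * g = q ^ 2 * (r * r) := by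
      rw [mul_comm, ← h]; ring
    exact mul_left_cancel₀ (pow_ne_zero 2 hq) this
  have h4 : IsUnit r := hg r ⟨1, by rw [mul_one]; exact h3⟩
  exact hgu (by rw [h3]; exact h4.mul h4)

theorem dom (g : R) (hg : Squarefree g) (hgu : ¬ IsUnit g) :
    IsDomain (QuadraticAlgebra R g 0) := by
  have hnorm : ∀ x : QuadraticAlgebra R g 0, x.norm = 0 → x = 0 := by
    intro x hx
    rw [QuadraticAlgebra.norm_def] at hx
    have h1 : x.re ^ 2 = g * x.im ^ 2 := by linear_combination hx
    have h2 := nonsq g hg hgu _ _ h1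
    rw [h2, zero_pow two_ne_zero, mul_zero, pow_eq_zero_iff two_ne_zero] at h1
    exact QuadraticAlgebra.ext h1 h2
  have : NoZeroDivisors (QuadraticAlgebra R g 0) := by
    constructor
    intro a b hab
    have h := congrArg QuadraticAlgebra.norm hab
    rw [map_mul, QuadraticAlgebra.norm_zero, mul_eq_zero] at h
    exact h.imp (hnorm _) (hnorm _)
  exact NoZeroDivisors.to_isDomain _

/-- integral elements that are fractions -/
theorem int_frac {F : Type u} [Field F] [Algebra R F] [FaithfulSMul R F] (r n : R) (hn : n ≠ 0)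
    (y : F) (h : algebraMap R F n * y = algebraMap R F r) (hy : IsIntegral R y) : n ∣ r := by
  let K := FractionRing R
  have hinj : Function.Injective (algebraMap R F) := FaithfulSMul.algebraMap_injective R F
  let f : K →+* F := IsFractionRing.lift hinj
  let : Algebra K F := f.toAlgebra
  have : IsScalarTower R K F := IsScalarTower.of_algebraMap_eq fun x => by
    change _ = f _
    rw [IsFractionRing.lift_algebraMap]
  have hnK : algebraMap R K n ≠ 0 := by
    rw [Ne, FaithfulSMul.algebraMap_eq_zero_iff]; exact hn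
  have hy' : y = algebraMap K F (algebraMap R K r / algebraMap R K n) := by
    rw [map_div₀, ← IsScalarTower.algebraMap_apply, ← IsScalarTower.algebraMap_apply, ← h]
    rw [mul_div_cancel_left₀]
    rw [Ne, FaithfulSMul.algebraMap_eq_zero_iff]; exact hn
  rw [hy', isIntegral_algebraMap_iff (algebraMap K F).injective] at hy
  obtain ⟨s, hs⟩ := IsIntegrallyClosed.isIntegral_iff.1 hy
  refine ⟨s, ?_⟩
  apply FaithfulSMul.algebraMap_injective R K
  rw [map_mul, hs, mul_div_cancel₀ _ hnK]

theorem intcl (g : R) (hg : Squarefree g) (hg0 : g ≠ 0) (hgu : ¬ IsUnit g) (h2 : IsUnit (2 : R)) :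
    IsIntegrallyClosed (QuadraticAlgebra R g 0) := by
  have := dom g hg hgu
  let B := QuadraticAlgebra R g 0
  let F := FractionRing B
  rw [isIntegrallyClosed_iff F]
  intro x hx
  have hinjF : Function.Injective (algebraMap B F) := IsFractionRing.injective B F
  have hinjR : Function.Injective (algebraMap R B) := by
    intro a b hab
    exact congrArg QuadraticAlgebra.re hab
  have : FaithfulSMul R F := by
    rw [faithfulSMul_iff_algebraMap_injective, IsScalarTower.algebraMap_eq R B F]
    exact hinjF.comp hinjR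
  have hRB : Algebra.IsIntegral R B := inferInstance
  let ψ : F →+* F := IsFractionRing.lift (g := (algebraMap B F).comp (starRingEnd B))
    (hinjF.comp (star_injective (R := B)))
  have hψ : ∀ t : B, ψ (algebraMap B F t) = algebraMap B F (star t) := fun t => by
    rw [IsFractionRing.lift_algebraMap]; rfl
  have hx' : IsIntegral B (ψ x) := by
    refine IsIntegral.map_of_comp_eq (starRingEnd B) ψ ?_ hx
    ext t
    rw [RingHom.comp_apply, RingHom.comp_apply, hψ]
    rfl
  have hxR : IsIntegral R x := isIntegral_trans x hx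
  have hxR' : IsIntegral R (ψ x) := isIntegral_trans _ hx'
  obtain ⟨b, s, hs, rfl⟩ := IsFractionRing.div_surjective (A := B) x
  set x : F := algebraMap B F b / algebraMap B F s with hxdef
  have hs0 : s ≠ 0 := nonZeroDivisors.ne_zero hs
  have hsF : algebraMap B F s ≠ 0 := by
    rw [Ne, FaithfulSMul.algebraMap_eq_zero_iff]; exact hs0
  have hstar0 : star s ≠ 0 := by
    rw [Ne, star_eq_zero]; exact hs0
  set β : B := b * star s with hβ
  set n : R := s.norm with hn
  have hnB : algebraMap R B n = s * star s := QuadraticAlgebra.algebraMap_norm_eq_mul_star s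
  have hn0 : n ≠ 0 := by
    intro h0
    rw [h0, map_zero] at hnB
    exact (mul_ne_zero hs0 hstar0) hnB.symm
  have e1 : algebraMap R F n * x = algebraMap B F β := by
    rw [IsScalarTower.algebraMap_apply R B F, hnB, hβ, map_mul, map_mul, hxdef]
    rw [mul_comm (algebraMap B F s) (algebraMap B F (star s)), mul_assoc, mul_div_cancel₀ _ hsF,
      mul_comm]
  have e2 : algebraMap R F n * ψ x = algebraMap B F (star β) := by
    have h := congrArg ψ e1
    rw [map_mul, hψ, IsScalarTower.algebraMap_apply R B F, hψ] at h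
    rw [← h, IsScalarTower.algebraMap_apply R B F]
    congr 2
    rw [hnB, star_mul, star_star]
  have e3 : algebraMap R F n * (x + ψ x) = algebraMap R F (2 * β.re) := by
    rw [mul_add, e1, e2, ← map_add, ← QuadraticAlgebra.algebraMap_trace_eq_add_star,
      ← IsScalarTower.algebraMap_apply, QuadraticAlgebra.trace_def, zero_mul, add_zero]
  have e4 : algebraMap R F (n ^ 2) * (x * ψ x) = algebraMap R F (β.re ^ 2 - g * β.im ^ 2) := by
    have : algebraMap R F (n ^ 2) * (x * ψ x) = (algebraMap R F n * x) * (algebraMap R F n * ψ x) := by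
      rw [map_pow]; ring
    rw [this, e1, e2, ← map_mul, ← QuadraticAlgebra.algebraMap_norm_eq_mul_star,
      ← IsScalarTower.algebraMap_apply, QuadraticAlgebra.norm_def]
    congr 1; ring
  have d1 : n ∣ 2 * β.re := int_frac _ n hn0 _ e3 (hxR.add hxR')
  have d1' : n ∣ β.re := (h2.dvd_mul_left).1 d1
  have d2 : n ^ 2 ∣ β.re ^ 2 - g * β.im ^ 2 :=
    int_frac _ _ (pow_ne_zero 2 hn0) _ e4 (hxR.mul hxR')
  have d3 : n ^ 2 ∣ g * β.im ^ 2 := by
    have := dvd_sub (pow_dvd_pow_of_dvd d1' 2) d2
    rwa [sub_sub_cancel] at this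
  obtain ⟨c, hc⟩ := d1'
  obtain ⟨d, hd⟩ := sq_dvd g hg hg0 n _ d3
  refine ⟨⟨c, d⟩, ?_⟩
  have hnF : algebraMap R F n ≠ 0 := by
    rw [Ne, FaithfulSMul.algebraMap_eq_zero_iff]; exact hn0
  apply mul_left_cancel₀ hnF
  rw [e1, IsScalarTower.algebraMap_apply R B F, ← map_mul]
  congr 1
  apply QuadraticAlgebra.ext
  · rw [← Algebra.smul_def, QuadraticAlgebra.re_smul, smul_eq_mul, hc]
  · rw [← Algebra.smul_def, QuadraticAlgebra.im_smul, smul_eq_mul, hd]

end general

section main

variable (k : Type u) [Field k] [CharZero k]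

omit [CharZero k] in
theorem isRel : IsRelPrime (X 0 : RR k) (X 1) := by
  refine (Irreducible.isRelPrime_iff_not_dvd (X_prime (i := 0)).irreducible).2 ?_
  rw [X_dvd_X]
  decide

theorem sqf : Squarefree (gg k) := by
  intro d hd
  obtain ⟨e, he⟩ := hd
  have hder : ∀ i : Fin 2, d ∣ pderiv i (gg k) := by
    intro i
    rw [he, Derivation.leibniz, Derivation.leibniz]
    refine ⟨d * pderiv i e + e * (pderiv i d + pderiv i d), ?_⟩
    simp only [smul_eq_mul]
    ring
  have h0 : pderiv 0 (gg k) = C 4 * X 0 ^ 3 := by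
    rw [gg, map_add, Derivation.leibniz_pow, Derivation.leibniz_pow, pderiv_X_self,
      pderiv_X_of_ne (by decide)]
    simp
    rfl
  have h1 : pderiv 1 (gg k) = C 4 * X 1 ^ 3 := by
    rw [gg, map_add, Derivation.leibniz_pow, Derivation.leibniz_pow, pderiv_X_self,
      pderiv_X_of_ne (by decide)]
    simp
    rfl
  have h4 : (4 : k) ≠ 0 := by norm_num
  have hu : IsUnit (C 4 : RR k) := (isUnit_iff_ne_zero.2 h4).map C
  have hd0 : d ∣ X 0 ^ 3 := (hu.dvd_mul_left).1 (h0 ▸ hder 0)
  have hd1 : d ∣ X 1 ^ 3 := (hu.dvd_mul_left).1 (h1 ▸ hder 1)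
  exact ((isRel k).pow_left.pow_right) hd0 hd1

omit [CharZero k] in
theorem gg_not_unit : ¬ IsUnit (gg k) := by
  intro h
  have := h.map (MvPolynomial.eval (fun _ : Fin 2 => (0 : k)))
  rw [gg] at this
  simp at this

theorem gg_ne : gg k ≠ 0 := by
  intro h
  have := congrArg (MvPolynomial.eval (fun _ : Fin 2 => (1 : k))) h
  rw [gg] at this
  norm_num at this

end main

/-- the module NORM -/
theorem norm : T_NORM.{u} := by
  intro k _ _ _
  have h1 : IsDomain (BB k) := dom (gg k) (sqf k) (gg_not_unit k)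
  have h2 : IsIntegrallyClosed (BB k) := intcl (gg k) (sqf k) (gg_ne k) (gg_not_unit k) (by
    have hu : IsUnit (C 2 : RR k) := (isUnit_iff_ne_zero.2 two_ne_zero).map C
    rwa [map_ofNat] at hu)
  exact ⟨(eqv k).toRingEquiv.toMulEquiv.isDomain _, IsIntegrallyClosed.of_equiv (eqv k).symm.toRingEquiv⟩

end Pool.Agent.H65.HZ.NORM
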