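import Pool.Agent.H65.HZ.Tan

/-!
# The origin is a singular point
-/

namespace Pool.Agent.H65.HZ.SING

open MvPolynomial Pool.Agent.H12.HS Pool.Agent.H65.HZ Pool.Agent.H65.HZ.Tan

universe u

section
variable (k : Type u) [Field k] [(origin k).IsMaximal]

theorem snd_mem (S : Set (LL k)) (hS : S ⊆ IsLocalRing.maximalIdeal (LL k)) (x : LL k)
    (hx : x ∈ Ideal.span S) :
    (tau k x).snd ∈ Submodule.span k ((fun s => (tau k s).snd) '' S) := by
  induction hx using Submodule.span_induction with
  | mem x h => exact Submodule.subset_span ⟨x, h, rfl⟩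
  | zero => simp
  | add x y _ _ hx hy => rw [map_add, TrivSqZeroExt.snd_add]; exact Submodule.add_mem _ hx hy
  | smul a x hxm hx =>
    have h0 : (tau k x).fst = 0 := tau_fst k x ((Ideal.span_le.2 hS) hxm)
    rw [smul_eq_mul, map_mul, TrivSqZeroExt.snd_mul, h0]
    simp only [MulOpposite.op_zero, zero_smul, add_zero]
    exact Submodule.smul_mem _ _ hx

end

/-- the module SING -/
theorem sing (hdim : T_DIM.{u}) : T_SING.{u} := by
  intro k _ _ _
  have hmax := origin_max k
  refine ⟨hmax, ?_⟩
  intro hreg
  have h1 := hreg.spanFinrank_maximalIdeal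
  have h2 : ringKrullDim (Localization.AtPrime (origin k)) ≤ 2 := by
    rw [IsLocalization.AtPrime.ringKrullDim_eq_height (origin k) (Localization.AtPrime (origin k)),
      ← hdim k]
    exact Ideal.height_le_ringKrullDim_of_ne_top hmax.ne_top
  have : IsNoetherianRing (LL k) := inferInstance
  have hfg : (IsLocalRing.maximalIdeal (LL k)).FG := Ideal.fg_of_isNoetherianRing _
  obtain ⟨S, hSc, hSs⟩ := Submodule.FG.exists_span_finset_card_eq_spanFinrank hfg
  have h3 : S.card ≤ 2 := by
    rw [hSc]
    rw [← h1] at h2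
    exact_mod_cast h2
  have hSm : (S : Set (LL k)) ⊆ IsLocalRing.maximalIdeal (LL k) := by
    rw [← hSs]; exact Submodule.subset_span
  have hspan : Submodule.span k ((fun s => (tau k s).snd) '' (S : Set (LL k))) = ⊤ := by
    rw [eq_top_iff, ← (Pi.basisFun k (Fin 3)).span_eq, Submodule.span_le]
    rintro _ ⟨i, rfl⟩
    have hx : algebraMap (SurfRing k) (LL k) (Ideal.Quotient.mk _ (X i)) ∈
        IsLocalRing.maximalIdeal (LL k) := by
      rw [IsLocalization.AtPrime.to_map_mem_maximal_iff (LL k) (origin k)]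
      exact Ideal.subset_span ⟨i, rfl⟩
    have h4 := snd_mem k S hSm _ (hSs.symm ▸ hx)
    rw [tau_alg, tau0_X, TrivSqZeroExt.snd_inr] at h4
    rw [Pi.basisFun_apply]
    exact h4
  classical
  rw [← Finset.coe_image] at hspan
  have h5 := finrank_span_finset_le_card (R := k) (S.image (fun s => (tau k s).snd))
  rw [Set.finrank, hspan, finrank_top, Module.finrank_fin_fun] at h5
  have h6 : (S.image (fun s => (tau k s).snd)).card ≤ S.card := Finset.card_image_le
  omega

end Pool.Agent.H65.HZ.SING
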