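import Pool.Agent.H65.HZ.IRR

/-!
# Families of points with a fixed basis
-/

namespace Pool.Agent.H65.HZ.Fam

open Matrix TensorProduct Pool.Agent.H12.HS Pool.Agent.H65.HZ.Pts Pool.Agent.H65.HZ.TR
  Pool.Agent.H65.HZ.IRR

universe u

section NF
variable {k A : Type u} [Field k] [CommRing A] [Algebra k A] {d : ℕ}
variable {L : Type u} [CommRing L] [Algebra k L] (m : Fin d → A) (l : A → Fin d → L)

/-- the generators of the ideal of the family -/
noncomputable def gn (a : A) : L ⊗[k] A := 1 ⊗ₜ a - ∑ i, (l a i) ⊗ₜ m i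

/-- the ideal of the family -/
noncomputable def JJ : Ideal (L ⊗[k] A) := Ideal.span (Set.range (gn (k := k) m l))

theorem nf (t : L ⊗[k] A) : ∃ s : Fin d → L, t - ∑ i, s i ⊗ₜ[k] m i ∈ JJ (k := k) m l := by
  induction t using TensorProduct.induction_on with
  | zero => exact ⟨0, by simp⟩
  | tmul x a =>
    refine ⟨fun i => x * l a i, ?_⟩
    have h : (x ⊗ₜ[k] a : L ⊗[k] A) - ∑ i, (x * l a i) ⊗ₜ[k] m i = (x ⊗ₜ[k] 1) * gn m l a := by
      rw [gn, mul_sub, Algebra.TensorProduct.tmul_mul_tmul, mul_one, one_mul, Finset.mul_sum]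
      congr 1
      refine Finset.sum_congr rfl fun i _ => ?_
      rw [Algebra.TensorProduct.tmul_mul_tmul, one_mul]
    rw [h]
    exact Ideal.mul_mem_left _ _ (Ideal.subset_span ⟨a, rfl⟩)
  | add x y hx hy =>
    obtain ⟨s, hs⟩ := hx
    obtain ⟨t, ht⟩ := hy
    refine ⟨s + t, ?_⟩
    have h : x + y - ∑ i, (s + t) i ⊗ₜ[k] m i = (x - ∑ i, s i ⊗ₜ[k] m i) +
        (y - ∑ i, t i ⊗ₜ[k] m i) := by
      simp only [Pi.add_apply, TensorProduct.add_tmul, Finset.sum_add_distrib]
      ring
    rw [h]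
    exact Ideal.add_mem _ hs ht

theorem ker_eq {W : Type u} [CommRing W] (ψ : L ⊗[k] A →+* W)
    (h1 : ∀ a, ψ (gn m l a) = 0) (h2 : ∀ s : Fin d → L, ψ (∑ i, s i ⊗ₜ[k] m i) = 0 → s = 0) :
    RingHom.ker ψ = JJ (k := k) m l := by
  apply le_antisymm
  · intro t ht
    obtain ⟨s, hs⟩ := nf m l t
    have h3 : JJ (k := k) m l ≤ RingHom.ker ψ := by
      rw [JJ, Ideal.span_le]
      rintro _ ⟨a, rfl⟩
      exact h1 a
    have h4 := h3 hs
    rw [RingHom.mem_ker] at ht h4
    rw [map_sub, ht, zero_sub, neg_eq_zero] at h4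
    have h5 := h2 s h4
    rw [h5] at hs
    simpa using hs
  · rw [JJ, Ideal.span_le]
    rintro _ ⟨a, rfl⟩
    exact h1 a

theorem map_JJ {L' : Type u} [CommRing L'] [Algebra k L'] (φ : L →ₐ[k] L') :
    (JJ (k := k) m l).map (Algebra.TensorProduct.map φ (AlgHom.id k A)).toRingHom =
      JJ (k := k) m fun a i => φ (l a i) := by
  rw [JJ, Ideal.map_span, JJ]
  congr 1
  rw [← Set.range_comp]
  congr 1
  funext a
  change (Algebra.TensorProduct.map φ (AlgHom.id k A)) (gn m l a) = gn m (fun a i => φ (l a i)) a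
  rw [gn, gn, map_sub, map_sum, Algebra.TensorProduct.map_tmul, map_one]
  congr 1

/-- the family -/
noncomputable def famOf (h2 : ∀ s : Fin d → L, ∑ i, s i ⊗ₜ[k] m i ∈ JJ (k := k) m l → s = 0) :
    HilbFam k A L d :=
  ⟨JJ (k := k) m l, by
    let Λ : (Fin d → L) →ₗ[L] ((L ⊗[k] A) ⧸ JJ (k := k) m l) :=
      Fintype.linearCombination L fun i => Ideal.Quotient.mk _ (1 ⊗ₜ m i)
    have hΛ : ∀ s, Λ s = Ideal.Quotient.mk _ (∑ i, s i ⊗ₜ[k] m i) := by
      intro s
      rw [Fintype.linearCombination_apply, map_sum]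
      refine Finset.sum_congr rfl fun i _ => ?_
      have h : (s i ⊗ₜ[k] m i : L ⊗[k] A) = s i • (1 ⊗ₜ[k] m i) := by
        rw [TensorProduct.smul_tmul', smul_eq_mul, mul_one]
      rw [h]
      rfl
    have hbij : Function.Bijective Λ := by
      constructor
      · rw [injective_iff_map_eq_zero]
        intro s hs
        rw [hΛ, Ideal.Quotient.eq_zero_iff_mem] at hs
        exact h2 s hs
      · intro x
        obtain ⟨t, rfl⟩ := Ideal.Quotient.mk_surjective x
        obtain ⟨s, hs⟩ := nf m l t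
        refine ⟨s, ?_⟩
        rw [hΛ]
        exact (Ideal.Quotient.eq.2 hs).symm
    let e := LinearEquiv.ofBijective Λ hbij
    refine ⟨Module.Finite.equiv e, Module.Projective.of_equiv e, fun p => ?_⟩
    have : Nontrivial L := ⟨0, 1, fun h => p.2.ne_top ((Ideal.eq_top_iff_one _).2 (by
      rw [← h]; exact Ideal.zero_mem _))⟩
    rw [← Module.rankAtStalk_eq_of_equiv e, Module.rankAtStalk_eq_finrank_of_free,
      Module.finrank_fin_fun]
    rfl⟩

end NF

section chart
variable {k : Type u} [Field k] {d : ℕ} (m : Fin d → SurfRing k)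

/-- the tuples of points in the chart -/
abbrev XX : Type u := {r : Fin d → SP k // (EM r m).det ≠ 0}

/-- the coordinates as functions of the tuple -/
noncomputable def PhiC : MvPolynomial (SurfRing k × Fin d) k →ₐ[k] (XX m → k) :=
  MvPolynomial.aeval fun x r => lam r.1 m x

/-- the coordinate ring of the chart -/
abbrev CC : Type u := MvPolynomial (SurfRing k × Fin d) k ⧸ RingHom.ker (PhiC m)

/-- functions on the chart -/
noncomputable def toF : CC m →ₐ[k] (XX m → k) := Ideal.Quotient.liftₐ _ (PhiC m) fun a ha => ha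

theorem toF_inj : Function.Injective (toF m) := by
  rw [injective_iff_map_eq_zero]
  intro t ht
  obtain ⟨F, rfl⟩ := Ideal.Quotient.mk_surjective t
  rw [Ideal.Quotient.eq_zero_iff_mem]
  exact ht

/-- evaluation at a point of the chart -/
noncomputable def chi (r : XX m) : CC m →ₐ[k] k := (Pi.evalAlgHom k (fun _ => k) r).comp (toF m)

theorem toF_mk (r : XX m) (F : MvPolynomial (SurfRing k × Fin d) k) :
    toF m (Ideal.Quotient.mk _ F) r = MvPolynomial.eval (lam r.1 m) F := by
  change PhiC m F r = _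
  have h : (Pi.evalAlgHom k (fun _ => k) r).comp (PhiC m) =
      MvPolynomial.aeval (lam r.1 m) := by
    apply MvPolynomial.algHom_ext
    intro x
    rw [AlgHom.comp_apply, PhiC, MvPolynomial.aeval_X, MvPolynomial.aeval_X]
    rfl
  have h2 := congrArg (fun g => g F) h
  simp only [AlgHom.comp_apply] at h2
  have h3 : MvPolynomial.aeval (lam r.1 m) F = MvPolynomial.eval (lam r.1 m) F := by
    rw [← MvPolynomial.coe_aeval_eq_eval]; rfl
  rw [← h3, ← h2]
  rfl

theorem chi_mk (r : XX m) (F : MvPolynomial (SurfRing k × Fin d) k) :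
    chi m r (Ideal.Quotient.mk _ F) = MvPolynomial.eval (lam r.1 m) F := toF_mk m r F

/-- the universal coordinates -/
noncomputable def lC (a : SurfRing k) (i : Fin d) : CC m :=
  Ideal.Quotient.mk _ (MvPolynomial.X (a, i))

theorem chi_lC (r : XX m) (a : SurfRing k) (i : Fin d) : chi m r (lC m a i) = lam r.1 m (a, i) := by
  rw [lC, chi_mk, MvPolynomial.eval_X]

/-- evaluation of families -/
noncomputable def psiC : CC m ⊗[k] SurfRing k →ₐ[k] (XX m × Fin d → k) :=
  Algebra.TensorProduct.productMap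
    (AlgHom.pi fun x : XX m × Fin d => chi m x.1)
    (AlgHom.pi fun x : XX m × Fin d => evp (x.1.1 x.2))

theorem psiC_tmul (t : CC m) (a : SurfRing k) (x : XX m × Fin d) :
    psiC m (t ⊗ₜ a) x = chi m x.1 t * evp (x.1.1 x.2) a := by
  rw [psiC, Algebra.TensorProduct.productMap_apply_tmul]
  rfl

theorem psiC_gn (a : SurfRing k) : psiC m (gn m (lC m) a) = 0 := by
  funext x
  rw [gn, map_sub, map_sum, Pi.sub_apply, Finset.sum_apply, psiC_tmul, map_one, one_mul,
    lam_spec x.1.1 m x.1.2 a x.2, Pi.zero_apply, sub_eq_zero]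
  refine Finset.sum_congr rfl fun i _ => ?_
  rw [psiC_tmul, chi_lC]

theorem indep {r : Fin d → SP k} (h : (EM r m).det ≠ 0) (s : Fin d → k)
    (hs : ∀ j, ∑ i, s i * evp (r j) (m i) = 0) : s = 0 := by
  have h1 : EM r m *ᵥ s = 0 := by
    funext j
    rw [Matrix.mulVec, dotProduct]
    rw [Pi.zero_apply, ← hs j]
    refine Finset.sum_congr rfl fun i _ => ?_
    rw [mul_comm]; rfl
  have h2 : (EM r m)⁻¹ *ᵥ (EM r m *ᵥ s) = s := by
    rw [Matrix.mulVec_mulVec, Matrix.nonsing_inv_mul _ (isUnit_iff_ne_zero.2 h),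
      Matrix.one_mulVec]
  rw [← h2, h1, Matrix.mulVec_zero]

theorem psiC_indep (s : Fin d → CC m) (hs : psiC m (∑ i, s i ⊗ₜ[k] m i) = 0) : s = 0 := by
  funext i
  apply toF_inj
  rw [Pi.zero_apply, map_zero]
  funext r
  have h : (fun i => chi m r (s i)) = 0 := by
    refine indep m r.2 _ fun j => ?_
    have := congrFun hs (r, j)
    rw [map_sum, Finset.sum_apply] at this
    simp only [psiC_tmul] at this
    exact this
  exact congrFun h i

/-- the universal family of the chart -/
noncomputable def famC : HilbFam k (SurfRing k) (CC m) d :=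
  famOf m (lC m) fun s hs => by
    rw [← ker_eq m (lC m) (psiC m).toRingHom (psiC_gn m) (psiC_indep m)] at hs
    exact psiC_indep m s hs

/-- evaluation of the family of a tuple -/
noncomputable def psiR (r : Fin d → SP k) : k ⊗[k] SurfRing k →ₐ[k] (Fin d → k) :=
  Algebra.TensorProduct.productMap (Algebra.ofId k _) (evm r)

theorem psiR_tmul (r : Fin d → SP k) (t : k) (a : SurfRing k) (j : Fin d) :
    psiR r (t ⊗ₜ a) j = t * evp (r j) a := by
  rw [psiR, Algebra.TensorProduct.productMap_apply_tmul]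
  rfl

theorem ker_psiR (r : XX m) : RingHom.ker (psiR r.1).toRingHom =
    JJ (k := k) m fun a i => lam r.1 m (a, i) := by
  refine ker_eq m _ _ ?_ ?_
  · intro a
    change psiR r.1 _ = 0
    funext j
    rw [gn, map_sub, map_sum, Pi.sub_apply, Finset.sum_apply, psiR_tmul, one_mul,
      lam_spec r.1 m r.2 a j, Pi.zero_apply, sub_eq_zero]
    refine Finset.sum_congr rfl fun i _ => ?_
    rw [psiR_tmul]
  · intro s hs
    refine indep m r.2 s fun j => ?_
    have h : psiR r.1 (∑ i, s i ⊗ₜ[k] m i) j = 0 := congrFun hs j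
    rw [map_sum, Finset.sum_apply] at h
    simpa only [psiR_tmul] using h

theorem map_famC (r : XX m) : (famC m).1.map
    (Algebra.TensorProduct.map (chi m r) (AlgHom.id k (SurfRing k))).toRingHom =
      RingHom.ker (psiR r.1).toRingHom := by
  rw [ker_psiR]
  change (JJ (k := k) m (lC m)).map _ = _
  rw [map_JJ]
  congr 1
  funext a i
  exact chi_lC m r a i

/-- the family of a tuple of points -/
noncomputable def famR (r : XX m) : HilbFam k (SurfRing k) k d :=
  famOf m (fun a i => lam r.1 m (a, i)) fun s hs => by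
    rw [← ker_psiR m r] at hs
    refine indep m r.2 s fun j => ?_
    have h : psiR r.1 (∑ i, s i ⊗ₜ[k] m i) j = 0 := congrFun hs j
    rw [map_sum, Finset.sum_apply] at h
    simpa only [psiR_tmul] using h

theorem famR_coe (r : XX m) : (famR m r).1 = RingHom.ker (psiR r.1).toRingHom :=
  (ker_psiR m r).symm

end chart

end Pool.Agent.H65.HZ.Fam
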