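import Pool.Agent.H12.HS.Stmt

/-!
# The surface ring is `k[x,y][z]/(z^2 - (x^4 + y^4))` as a quadratic algebra
-/

namespace Pool.Agent.H65.HZ

open MvPolynomial Pool.Agent.H12.HS

universe u

section
variable (k : Type u) [Field k]

/-- the polynomial ring `k[x,y]` -/
abbrev RR : Type u := MvPolynomial (Fin 2) k

/-- the quartic `x^4 + y^4` -/
noncomputable def gg : RR k := X 0 ^ 4 + X 1 ^ 4

/-- the quadratic algebra -/
abbrev BB : Type u := QuadraticAlgebra (RR k) (gg k) 0

/-- the relation -/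
noncomputable def rel : MvPolynomial (Fin 3) k := X 2 ^ 2 - (X 0 ^ 4 + X 1 ^ 4)

/-- the evaluation map -/
noncomputable def phi0 : MvPolynomial (Fin 3) k →ₐ[k] BB k :=
  MvPolynomial.aeval ![(⟨X 0, 0⟩ : BB k), ⟨X 1, 0⟩, ⟨0, 1⟩]

theorem pow_mk (a : RR k) (n : ℕ) : (⟨a, 0⟩ : BB k) ^ n = ⟨a ^ n, 0⟩ := by
  induction n with
  | zero => simp; rfl
  | succ n ih => rw [pow_succ, ih]; apply QuadraticAlgebra.ext <;> simp [pow_succ]

theorem phi0_rel : phi0 k (rel k) = 0 := by
  simp only [phi0, rel, map_sub, map_pow, map_add, aeval_X]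
  simp only [Matrix.cons_val_zero, Matrix.cons_val_one, Matrix.cons_val]
  rw [pow_mk, pow_mk]
  have h1 : (⟨0, 1⟩ : BB k) ^ 2 = ⟨gg k, 0⟩ := by
    rw [sq]
    apply QuadraticAlgebra.ext <;> simp
  have h2 : (⟨X 0 ^ 4, 0⟩ : BB k) + ⟨X 1 ^ 4, 0⟩ = ⟨gg k, 0⟩ := by
    apply QuadraticAlgebra.ext
    · rfl
    · simp
  rw [h1, h2, sub_self]

/-- the map from the surface ring -/
noncomputable def phi : SurfRing k →ₐ[k] BB k :=
  Ideal.Quotient.liftₐ _ (phi0 k) (by
    intro a ha
    change a ∈ Ideal.span {rel k} at ha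
    rw [Ideal.mem_span_singleton] at ha
    obtain ⟨c, rfl⟩ := ha
    rw [map_mul, phi0_rel, zero_mul])

theorem phi_mk (f : MvPolynomial (Fin 3) k) : phi k (Ideal.Quotient.mk _ f) = phi0 k f := rfl

/-- `k[x,y] → A` -/
noncomputable def iot : RR k →ₐ[k] SurfRing k :=
  MvPolynomial.aeval fun i : Fin 2 => Ideal.Quotient.mk _ (X (Fin.castSucc i))

theorem phi_iot (a : RR k) : phi k (iot k a) = ⟨a, 0⟩ := by
  have h : (phi k).comp (iot k) = IsScalarTower.toAlgHom k (RR k) (BB k) := by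
    apply MvPolynomial.algHom_ext
    intro i
    simp only [iot, AlgHom.comp_apply, aeval_X, phi_mk, phi0, IsScalarTower.coe_toAlgHom']
    fin_cases i
    · rfl
    · rfl
  exact congrArg (fun f => f a) h

/-- the class of `z` -/
noncomputable def zz : SurfRing k := Ideal.Quotient.mk _ (X 2)

theorem phi_zz : phi k (zz k) = ⟨0, 1⟩ := by
  simp only [zz, phi_mk, phi0, aeval_X]
  rfl

theorem zz_sq : zz k * zz k = iot k (gg k) := by
  rw [iot, gg, map_add, map_pow, map_pow, aeval_X, aeval_X, ← map_pow, ← map_pow, ← map_add, zz,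
    ← map_mul, Ideal.Quotient.eq, Ideal.mem_span_singleton]
  refine ⟨1, ?_⟩
  rw [mul_one, sq]
  rfl

theorem exists_form (s : SurfRing k) : ∃ a b : RR k, s = iot k a + iot k b * zz k := by
  obtain ⟨f, rfl⟩ := Ideal.Quotient.mk_surjective s
  induction f using MvPolynomial.induction_on with
  | C c =>
    refine ⟨C c, 0, ?_⟩
    rw [map_zero, zero_mul, add_zero, iot, aeval_C]
    rfl
  | add p q hp hq =>
    obtain ⟨a, b, h⟩ := hp
    obtain ⟨a', b', h'⟩ := hq
    refine ⟨a + a', b + b', ?_⟩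
    rw [map_add, h, h', map_add, map_add]; ring
  | mul_X p i hp =>
    obtain ⟨a, b, h⟩ := hp
    have h0 : (Ideal.Quotient.mk _ (X 0) : SurfRing k) = iot k (X 0) := by
      rw [iot, aeval_X]; rfl
    have h1 : (Ideal.Quotient.mk _ (X 1) : SurfRing k) = iot k (X 1) := by
      rw [iot, aeval_X]; rfl
    fin_cases i
    · refine ⟨a * X 0, b * X 0, ?_⟩
      rw [map_mul, h, map_mul, map_mul]
      change _ * (Ideal.Quotient.mk _ (X 0) : SurfRing k) = _
      rw [h0]; ring
    · refine ⟨a * X 1, b * X 1, ?_⟩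
      rw [map_mul, h, map_mul, map_mul]
      change _ * (Ideal.Quotient.mk _ (X 1) : SurfRing k) = _
      rw [h1]; ring
    · refine ⟨b * gg k, a, ?_⟩
      rw [map_mul, h, map_mul, ← zz_sq]
      change _ * zz k = _
      ring

theorem phi_form (a b : RR k) : phi k (iot k a + iot k b * zz k) = ⟨a, b⟩ := by
  rw [map_add, map_mul, phi_iot, phi_iot, phi_zz]
  apply QuadraticAlgebra.ext <;> simp

theorem phi_bij : Function.Bijective (phi k) := by
  constructor
  · rw [injective_iff_map_eq_zero]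
    intro s hs
    obtain ⟨a, b, rfl⟩ := exists_form k s
    rw [phi_form] at hs
    have ha : a = 0 := congrArg QuadraticAlgebra.re hs
    have hb : b = 0 := congrArg QuadraticAlgebra.im hs
    rw [ha, hb, map_zero, zero_mul, add_zero]
  · intro b
    exact ⟨_, phi_form k b.re b.im⟩

/-- the isomorphism -/
noncomputable def eqv : SurfRing k ≃ₐ[k] BB k := AlgEquiv.ofBijective (phi k) (phi_bij k)

end

end Pool.Agent.H65.HZ
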