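import Pool.Agent.H12.HS.Stmt

/-!
# Tuples of points of the surface
-/

namespace Pool.Agent.H65.HZ.Pts

open MvPolynomial Matrix Pool.Agent.H12.HS

universe u

section
variable (k : Type u) [Field k]

/-- the relation -/
noncomputable def rl : MvPolynomial (Fin 3) k := X 2 ^ 2 - (X 0 ^ 4 + X 1 ^ 4)

/-- the `k`-points of the surface -/
abbrev SP : Type u := {q : Fin 3 → k // q 2 ^ 2 = q 0 ^ 4 + q 1 ^ 4}

variable {k}

theorem aev {σ : Type} (q : σ → k) (f : MvPolynomial σ k) : MvPolynomial.aeval q f = eval q f := by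
  rw [← MvPolynomial.coe_aeval_eq_eval]; rfl

theorem ev_rl (q : Fin 3 → k) : eval q (rl k) = q 2 ^ 2 - (q 0 ^ 4 + q 1 ^ 4) := by
  simp [rl]

/-- evaluation at a point -/
noncomputable def evp (q : SP k) : SurfRing k →ₐ[k] k :=
  Ideal.Quotient.liftₐ _ (MvPolynomial.aeval q.1) (by
    intro a ha
    change a ∈ Ideal.span {rl k} at ha
    rw [Ideal.mem_span_singleton] at ha
    obtain ⟨c, rfl⟩ := ha
    rw [map_mul, aev, ev_rl, q.2, sub_self, zero_mul])

theorem evp_mk (q : SP k) (f : MvPolynomial (Fin 3) k) :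
    evp q (Ideal.Quotient.mk _ f) = eval q.1 f := by
  exact aev q.1 f

/-- polynomial representatives -/
noncomputable def rep (a : SurfRing k) : MvPolynomial (Fin 3) k :=
  Function.surjInv Ideal.Quotient.mk_surjective a

theorem mk_rep (a : SurfRing k) : Ideal.Quotient.mk _ (rep a) = a :=
  Function.surjInv_eq _ a

theorem ev_rep (q : SP k) (a : SurfRing k) : eval q.1 (rep a) = evp q a := by
  rw [← evp_mk, mk_rep]

theorem exists_ne [IsAlgClosed k] (hN : IsDomain (SurfRing k)) (a : SurfRing k) (ha : a ≠ 0) :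
    ∃ q : SP k, evp q a ≠ 0 := by
  by_contra hcon
  push Not at hcon
  apply ha
  have hp : (Ideal.span {rl k}).IsPrime := (Ideal.Quotient.isDomain_iff_prime _).1 hN
  have h1 : rep a ∈ Ideal.span {rl k} := by
    rw [← MvPolynomial.IsPrime.vanishingIdeal_zeroLocus (K := k) (Ideal.span {rl k})]
    rw [mem_vanishingIdeal_iff]
    intro x hx
    rw [mem_zeroLocus_iff] at hx
    have h2 := hx (rl k) (Ideal.subset_span rfl)
    rw [aev, ev_rl, sub_eq_zero] at h2
    have h3 := hcon ⟨x, h2⟩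
    rw [← ev_rep] at h3
    rw [aev]
    exact h3
  rw [← mk_rep a]
  exact Ideal.Quotient.eq_zero_iff_mem.2 h1

/-- evaluation at a tuple of points -/
noncomputable def evt {d : ℕ} (r : Fin d → SP k) : MvPolynomial (Fin d × Fin 3) k →+* k :=
  MvPolynomial.eval fun x => (r x.1).1 x.2

/-- freeze all points except the `i`-th one -/
noncomputable def frz {d : ℕ} (r : Fin d → SP k) (i : Fin d) :
    MvPolynomial (Fin d × Fin 3) k →ₐ[k] MvPolynomial (Fin 3) k :=
  MvPolynomial.aeval fun x => if x.1 = i then X x.2 else C ((r x.1).1 x.2)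

theorem frz_ev {d : ℕ} (r : Fin d → SP k) (i : Fin d) (q : SP k)
    (H : MvPolynomial (Fin d × Fin 3) k) :
    evp q (Ideal.Quotient.mk _ (frz r i H)) = evt (Function.update r i q) H := by
  rw [evp_mk]
  have h : (MvPolynomial.aeval q.1).comp (frz r i) =
      (MvPolynomial.aeval fun x : Fin d × Fin 3 => ((Function.update r i q) x.1).1 x.2 :
        MvPolynomial (Fin d × Fin 3) k →ₐ[k] k) := by
    apply MvPolynomial.algHom_ext
    intro x
    rw [AlgHom.comp_apply, frz, aeval_X, aeval_X]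
    by_cases hx : x.1 = i
    · rw [if_pos hx, aeval_X, hx, Function.update_self]
    · rw [if_neg hx, Function.update_of_ne hx]
      simp
  have h2 := congrArg (fun f => f H) h
  simp only [AlgHom.comp_apply, aev] at h2
  exact h2

open Classical in
theorem prod_irr [IsAlgClosed k] (hN : IsDomain (SurfRing k)) {d : ℕ}
    (H1 H2 : MvPolynomial (Fin d × Fin 3) k) :
    ∀ (n : ℕ) (r1 r2 : Fin d → SP k), (Finset.univ.filter fun i => r1 i ≠ r2 i).card = n →
      evt r1 H1 ≠ 0 → evt r2 H2 ≠ 0 → ∃ r, evt r H1 ≠ 0 ∧ evt r H2 ≠ 0 := by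
  intro n
  induction n with
  | zero =>
    intro r1 r2 hn h1 h2
    have : r1 = r2 := by
      funext i
      by_contra h
      rw [Finset.card_eq_zero, Finset.filter_eq_empty_iff] at hn
      exact hn (Finset.mem_univ i) h
    subst this
    exact ⟨r1, h1, h2⟩
  | succ n ih =>
    intro r1 r2 hn h1 h2
    obtain ⟨i, hi⟩ : (Finset.univ.filter fun i => r1 i ≠ r2 i).Nonempty := by
      rw [← Finset.card_pos, hn]; omega
    rw [Finset.mem_filter] at hi
    have a1 : (Ideal.Quotient.mk _ (frz r1 i H1) : SurfRing k) ≠ 0 := by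
      intro h0
      have := frz_ev r1 i (r1 i) H1
      rw [h0, map_zero, Function.update_eq_self] at this
      exact h1 this.symm
    have a2 : (Ideal.Quotient.mk _ (frz r2 i H2) : SurfRing k) ≠ 0 := by
      intro h0
      have := frz_ev r2 i (r2 i) H2
      rw [h0, map_zero, Function.update_eq_self] at this
      exact h2 this.symm
    obtain ⟨q, hq⟩ := exists_ne hN _ (mul_ne_zero a1 a2)
    rw [map_mul, frz_ev, frz_ev] at hq
    refine ih (Function.update r1 i q) (Function.update r2 i q) ?_ (left_ne_zero_of_mul hq)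
      (right_ne_zero_of_mul hq)
    have : (Finset.univ.filter fun j => Function.update r1 i q j ≠ Function.update r2 i q j) =
        (Finset.univ.filter fun j => r1 j ≠ r2 j).erase i := by
      ext j
      rw [Finset.mem_erase, Finset.mem_filter, Finset.mem_filter]
      by_cases hj : j = i
      · subst hj; simp
      · simp [Function.update_of_ne hj, hj]
    rw [this, Finset.card_erase_of_mem (Finset.mem_filter.2 hi), hn]
    rfl

/-- homogenization -/
theorem hom {R : Type u} [CommRing R] [Algebra k R] {σ : Type u} (F : MvPolynomial σ k)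
    (Δ : R) (l : σ → R) : ∃ (N : ℕ) (G : R), ∀ (E : Type u) [Field E] (ε : R →+* E), ε Δ ≠ 0 →
      ε G = (ε Δ) ^ N *
        MvPolynomial.eval₂ (ε.comp (algebraMap k R)) (fun s => ε (l s) / ε Δ) F := by
  induction F using MvPolynomial.induction_on with
  | C c =>
    refine ⟨0, algebraMap k R c, fun E _ ε h => ?_⟩
    rw [pow_zero, one_mul, eval₂_C]
    rfl
  | add p q hp hq =>
    obtain ⟨N1, G1, h1⟩ := hp
    obtain ⟨N2, G2, h2⟩ := hq
    refine ⟨N1 + N2, Δ ^ N2 * G1 + Δ ^ N1 * G2, fun E _ ε h => ?_⟩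
    rw [eval₂_add, map_add, map_mul, map_mul, h1 E ε h, h2 E ε h, map_pow, map_pow]
    ring
  | mul_X p s hp =>
    obtain ⟨N, G, h1⟩ := hp
    refine ⟨N + 1, G * l s, fun E _ ε h => ?_⟩
    rw [eval₂_mul, eval₂_X, map_mul, h1 E ε h]
    field_simp
    ring

/-- the matrix of values -/
noncomputable def EM {d : ℕ} (r : Fin d → SP k) (m : Fin d → SurfRing k) :
    Matrix (Fin d) (Fin d) k := Matrix.of fun j i => evp (r j) (m i)

/-- coordinates modulo the ideal of the points -/
noncomputable def lam {d : ℕ} (r : Fin d → SP k) (m : Fin d → SurfRing k)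
    (x : SurfRing k × Fin d) : k :=
  ((EM r m)⁻¹ *ᵥ fun j => evp (r j) x.1) x.2

theorem lam_spec {d : ℕ} (r : Fin d → SP k) (m : Fin d → SurfRing k) (h : (EM r m).det ≠ 0)
    (a : SurfRing k) (j : Fin d) : evp (r j) a = ∑ i, lam r m (a, i) * evp (r j) (m i) := by
  have h1 : EM r m *ᵥ ((EM r m)⁻¹ *ᵥ fun j => evp (r j) a) = fun j => evp (r j) a := by
    rw [Matrix.mulVec_mulVec, Matrix.mul_nonsing_inv _ (isUnit_iff_ne_zero.2 h),
      Matrix.one_mulVec]
  have h2 := congrFun h1 j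
  rw [← h2]
  rw [Matrix.mulVec, dotProduct]
  refine Finset.sum_congr rfl fun i _ => ?_
  rw [mul_comm]
  rfl

/-- the polynomial version -/
theorem P_of {d : ℕ} (m : Fin d → SurfRing k) (F : MvPolynomial (SurfRing k × Fin d) k)
    (hex : ∃ r : Fin d → SP k, (EM r m).det ≠ 0 ∧ eval (lam r m) F ≠ 0) :
    ∃ H : MvPolynomial (Fin d × Fin 3) k, (∃ r : Fin d → SP k, evt r H ≠ 0) ∧
      ∀ r : Fin d → SP k, evt r H ≠ 0 → (EM r m).det ≠ 0 ∧ eval (lam r m) F ≠ 0 := by
  let col : SurfRing k → Fin d → MvPolynomial (Fin d × Fin 3) k :=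
    fun a j => rename (fun t => (j, t)) (rep a)
  have hcol : ∀ (r : Fin d → SP k) a j, evt r (col a j) = evp (r j) a := by
    intro r a j
    rw [evt, eval_rename, ← ev_rep]
    rfl
  let Em : Matrix (Fin d) (Fin d) (MvPolynomial (Fin d × Fin 3) k) :=
    Matrix.of fun j i => col (m i) j
  have hEm : ∀ r : Fin d → SP k, Em.map (evt r) = EM r m := by
    intro r
    ext j i
    exact hcol r (m i) j
  obtain ⟨N, G, hG⟩ := hom F Em.det fun x : SurfRing k × Fin d =>
    (Em.adjugate *ᵥ (col x.1)) x.2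
  have hdet : ∀ r : Fin d → SP k, evt r Em.det = (EM r m).det := by
    intro r
    rw [RingHom.map_det, RingHom.mapMatrix_apply, hEm]
  have hkey : ∀ r : Fin d → SP k, (EM r m).det ≠ 0 →
      evt r G = (EM r m).det ^ N * eval (lam r m) F := by
    intro r hr
    have h1 := hG k (evt r) (by rw [hdet]; exact hr)
    rw [h1, hdet]
    congr 1
    have h2 : (evt r).comp (algebraMap k (MvPolynomial (Fin d × Fin 3) k)) = RingHom.id k := by
      ext c
      simp [evt]
    rw [h2]
    have h3 : (fun s : SurfRing k × Fin d => evt r ((Em.adjugate *ᵥ (col s.1)) s.2) /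
        (EM r m).det) = lam r m := by
      funext s
      have h4 : evt r ((Em.adjugate *ᵥ (col s.1)) s.2) =
          ((EM r m).adjugate *ᵥ fun j => evp (r j) s.1) s.2 := by
        rw [Matrix.mulVec, dotProduct, map_sum, Matrix.mulVec, dotProduct]
        refine Finset.sum_congr rfl fun j _ => ?_
        rw [map_mul, hcol, ← hEm r, ← RingHom.mapMatrix_apply, ← RingHom.map_adjugate]
        rfl
      rw [h4, lam, Matrix.inv_def, Matrix.smul_mulVec, Pi.smul_apply, Ring.inverse_eq_inv',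
        smul_eq_mul, div_eq_inv_mul]
    rw [h3]
    rfl
  refine ⟨Em.det * G, ?_, ?_⟩
  · obtain ⟨r, h1, h2⟩ := hex
    refine ⟨r, ?_⟩
    rw [map_mul, hdet, hkey r h1]
    exact mul_ne_zero h1 (mul_ne_zero (pow_ne_zero _ h1) h2)
  · intro r hr
    rw [map_mul, hdet] at hr
    have h1 := left_ne_zero_of_mul hr
    have h2 := right_ne_zero_of_mul hr
    rw [hkey r h1] at h2
    exact ⟨h1, right_ne_zero_of_mul h2⟩

/-- the property used for open sets -/
def PP {d : ℕ} (Q : (Fin d → SP k) → Prop) : Prop :=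
  ∃ H : MvPolynomial (Fin d × Fin 3) k, (∃ r : Fin d → SP k, evt r H ≠ 0) ∧
    ∀ r : Fin d → SP k, evt r H ≠ 0 → Q r

theorem PP.and [IsAlgClosed k] (hN : IsDomain (SurfRing k)) {d : ℕ} {Q Q' : (Fin d → SP k) → Prop}
    (h : PP Q) (h' : PP Q') : PP fun r => Q r ∧ Q' r := by
  obtain ⟨H, ⟨r, hr⟩, hH⟩ := h
  obtain ⟨H', ⟨r', hr'⟩, hH'⟩ := h'
  obtain ⟨s, h1, h2⟩ := prod_irr hN H H' _ r r' rfl hr hr'
  refine ⟨H * H', ⟨s, ?_⟩, ?_⟩
  · rw [map_mul]; exact mul_ne_zero h1 h2
  · intro t ht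
    rw [map_mul] at ht
    exact ⟨hH t (left_ne_zero_of_mul ht), hH' t (right_ne_zero_of_mul ht)⟩

theorem PP.mono {d : ℕ} {Q Q' : (Fin d → SP k) → Prop}
    (h : PP Q) (h' : ∀ r, Q r → Q' r) : PP Q' := by
  obtain ⟨H, hr, hH⟩ := h
  exact ⟨H, hr, fun r hr => h' r (hH r hr)⟩

theorem PP.ex {d : ℕ} {Q : (Fin d → SP k) → Prop} (h : PP Q) : ∃ r, Q r := by
  obtain ⟨H, ⟨r, hr⟩, hH⟩ := h
  exact ⟨r, hH r hr⟩

/-- there are tuples on which the powers of `x` are a basis -/
theorem exists_tuple [CharZero k] (d : ℕ) : ∃ (m : Fin d → SurfRing k) (r : Fin d → SP k),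
    (EM r m).det ≠ 0 := by
  refine ⟨fun i => Ideal.Quotient.mk _ (X 0 ^ (i : ℕ)),
    fun j => ⟨![(j : ℕ), 0, ((j : ℕ) : k) ^ 2], by simp; ring⟩, ?_⟩
  have h : EM (fun j : Fin d => (⟨![((j : ℕ) : k), 0, ((j : ℕ) : k) ^ 2], by simp; ring⟩ : SP k))
      (fun i : Fin d => (Ideal.Quotient.mk _ (X 0 ^ (i : ℕ)) : SurfRing k)) =
      Matrix.vandermonde fun j : Fin d => ((j : ℕ) : k) := by
    ext j i
    rw [EM, Matrix.of_apply, evp_mk, Matrix.vandermonde_apply]
    simp
  rw [h, Matrix.det_vandermonde_ne_zero_iff]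
  intro i j hij
  exact Fin.ext (Nat.cast_injective hij)

end

end Pool.Agent.H65.HZ.Pts
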