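import Pool.Agent.H65.HZ.Pts
import Pool.Agent.H12.HS.Targets

/-!
# From smoothability of algebras to relations between coordinates
-/

namespace Pool.Agent.H65.HZ.TR

open MvPolynomial Matrix Pool.Agent.H12.HS Pool.Agent.H65.HZ.Pts

universe u

section oe

/-- ordered evaluation of a polynomial at a configuration -/
noncomputable def oe {k R : Type u} [Field k] [CommRing R] {d : ℕ} (ι : k →+* R) (c : Cfg d R)
    (f : MvPolynomial (Fin 3) k) : Fin d → R :=
  (AddMonoidAlgebra.coeff f).sum fun s a => ι a • ((c.M 0 ^ s 0 * c.M 1 ^ s 1 * c.M 2 ^ s 2) *ᵥ c.v)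

variable {k R : Type u} [Field k] [CommRing R] {d : ℕ} (ι : k →+* R) (c : Cfg d R)

theorem oe_add (f g : MvPolynomial (Fin 3) k) : oe ι c (f + g) = oe ι c f + oe ι c g := by
  rw [oe, oe, oe]
  refine Finsupp.sum_add_index' (fun s => ?_) (fun s a b => ?_)
  · rw [map_zero, zero_smul]
  · rw [map_add, add_smul]

theorem oe_monomial (s : Fin 3 →₀ ℕ) (a : k) : oe ι c (monomial s a) =
    ι a • ((c.M 0 ^ s 0 * c.M 1 ^ s 1 * c.M 2 ^ s 2) *ᵥ c.v) := by
  rw [oe]
  refine sum_monomial_eq ?_
  rw [map_zero, zero_smul]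

theorem oe_map {E : Type u} [CommRing E] (ε : R →+* E) (f : MvPolynomial (Fin 3) k) (i : Fin d) :
    ε (oe ι c f i) = oe (ε.comp ι) (c.map ε) f i := by
  induction f using MvPolynomial.induction_on' with
  | monomial s a =>
    rw [oe_monomial, oe_monomial, Pi.smul_apply, Pi.smul_apply, smul_eq_mul, smul_eq_mul, map_mul]
    congr 1
    rw [RingHom.map_mulVec]
    congr 1
    simp only [← RingHom.mapMatrix_apply, map_mul, map_pow, Cfg.map]
  | add p q hp hq =>
    rw [oe_add, oe_add, Pi.add_apply, Pi.add_apply, map_add, hp, hq]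

theorem oe_cfg {K W : Type u} [Field K] [CommRing W] [Algebra K W] (κ : k →+* K)
    (b : Module.Basis (Fin d) K W) (p : Fin 3 → W) (f : MvPolynomial (Fin 3) k) :
    oe κ (cfgOf b p) f = b.repr (eval₂ ((algebraMap K W).comp κ) p f) := by
  induction f using MvPolynomial.induction_on' with
  | monomial s a =>
    rw [oe_monomial, eval₂_monomial]
    have h1 : (cfgOf b p).M 0 ^ s 0 * (cfgOf b p).M 1 ^ s 1 * (cfgOf b p).M 2 ^ s 2 =
        Algebra.leftMulMatrix b (p 0 ^ s 0 * p 1 ^ s 1 * p 2 ^ s 2) := by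
      rw [map_mul, map_mul, map_pow, map_pow, map_pow]
      rfl
    have h2 : (cfgOf b p).v = b.repr 1 := rfl
    rw [h1, h2, Algebra.leftMulMatrix_mulVec_repr, mul_one]
    have h3 : (s.prod fun i e => p i ^ e) = p 0 ^ s 0 * p 1 ^ s 1 * p 2 ^ s 2 := by
      rw [Finsupp.prod_fintype _ _ (fun i => pow_zero _), Fin.prod_univ_three]
    rw [h3, RingHom.comp_apply, ← Algebra.smul_def, map_smul]
    rfl
  | add p q hp hq =>
    rw [oe_add, eval₂_add, map_add, hp, hq]
    rfl

theorem oe_red (p : Fin d → Fin 3 → k) (U V : Matrix (Fin d) (Fin d) k) (hUV : U * V = 1)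
    (c : Cfg d k) (hM : ∀ a, c.M a = U * Matrix.diagonal (fun i => p i a) * V)
    (hv : c.v = U *ᵥ 1) (f : MvPolynomial (Fin 3) k) :
    oe (RingHom.id k) c f = U *ᵥ fun j => eval (p j) f := by
  have hVU : V * U = 1 := mul_eq_one_comm.1 hUV
  have hpow : ∀ a n, c.M a ^ n = U * Matrix.diagonal (fun i => p i a ^ n) * V := by
    intro a n
    induction n with
    | zero => simp [hUV]
    | succ n ih =>
      rw [pow_succ, ih, hM]
      have : U * diagonal (fun i => p i a ^ n) * V * (U * diagonal (fun i => p i a) * V) =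
          U * diagonal (fun i => p i a ^ n) * (V * U) * diagonal (fun i => p i a) * V := by
        simp only [Matrix.mul_assoc]
      rw [this, hVU, Matrix.mul_one, Matrix.mul_assoc U, Matrix.diagonal_mul_diagonal]
      simp only [pow_succ]
  induction f using MvPolynomial.induction_on' with
  | monomial s a =>
    rw [oe_monomial, hpow, hpow, hpow, hv]
    have : U * diagonal (fun i => p i 0 ^ s 0) * V * (U * diagonal (fun i => p i 1 ^ s 1) * V) *
        (U * diagonal (fun i => p i 2 ^ s 2) * V) = U * (diagonal (fun i => p i 0 ^ s 0) *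
        ((V * U) * (diagonal (fun i => p i 1 ^ s 1) * ((V * U) *
        diagonal (fun i => p i 2 ^ s 2))))) * V := by
      simp only [Matrix.mul_assoc]
    rw [this, hVU, Matrix.one_mul, Matrix.one_mul, Matrix.diagonal_mul_diagonal,
      Matrix.diagonal_mul_diagonal, Matrix.mulVec_mulVec, Matrix.mul_assoc, Matrix.mul_assoc, hVU,
      Matrix.mul_one, ← Matrix.mulVec_mulVec, ← Matrix.mulVec_smul]
    congr 1
    funext j
    rw [Pi.smul_apply, Matrix.mulVec_diagonal, Pi.one_apply, mul_one, eval_monomial,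
      Finsupp.prod_fintype _ _ (fun i => pow_zero _), Fin.prod_univ_three, smul_eq_mul,
      RingHom.id_apply, mul_assoc (p j 0 ^ s 0)]
  | add p q hp hq =>
    rw [oe_add, hp, hq, ← Matrix.mulVec_add]
    congr 1
    funext j
    rw [map_add]
    rfl

end oe

section main

/-- the generic configuration -/
noncomputable def gen (k : Type u) [Field k] (d : ℕ) : Cfg d (MvPolynomial (Idx d) k) :=
  ⟨fun a => Matrix.of fun i j => X (Sum.inl (a, i, j)), fun i => X (Sum.inr i)⟩

theorem gen_map {k K : Type u} [Field k] [Field K] (κ : k →+* K) {d : ℕ} (c : Cfg d K) :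
    (gen k d).map (eval₂Hom κ c.fn) = c := by
  refine Cfg.ext ?_ ?_
  · funext a
    ext i j
    change eval₂Hom κ c.fn (X (Sum.inl (a, i, j))) = _
    rw [eval₂Hom_X']
    rfl
  · funext i
    change eval₂Hom κ c.fn (X (Sum.inr i)) = _
    rw [eval₂Hom_X']
    rfl

theorem pi_mk {k K W : Type u} [Field k] [Field K] (κ : k →+* K) [CommRing W] [Algebra K W]
    (π : SurfRing k →+* W) (hπ : ∀ c : k, π (algebraMap k _ c) = algebraMap K W (κ c))
    (f : MvPolynomial (Fin 3) k) : π (Ideal.Quotient.mk _ f) =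
      eval₂ ((algebraMap K W).comp κ) (fun i => π (Ideal.Quotient.mk _ (X i))) f := by
  have h : π.comp (Ideal.Quotient.mk _) = eval₂Hom ((algebraMap K W).comp κ)
      (fun i => π (Ideal.Quotient.mk _ (X i))) := by
    apply MvPolynomial.ringHom_ext
    · intro c
      rw [RingHom.comp_apply, eval₂Hom_C, RingHom.comp_apply, ← hπ]
      rfl
    · intro i
      rw [RingHom.comp_apply, eval₂Hom_X']
  have h2 := congrArg (fun g => g f) h
  exact h2

theorem cfg_sm (hall : T_ALL.{u}) {k K : Type u} [Field k] [IsAlgClosed k] [CharZero k] [Field K]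
    [IsAlgClosed K] (κ : k →+* K) (W : Type u) [CommRing W] [Algebra K W] [Module.Finite K W]
    (π : SurfRing k →+* W) (hπ : ∀ c : k, π (algebraMap k _ c) = algebraMap K W (κ c))
    (hspan : Submodule.span K (Set.range π) = ⊤) {d : ℕ} (bas : Module.Basis (Fin d) K W) :
    SmCfg κ (cfgOf bas fun i => π (Ideal.Quotient.mk _ (X i))) := by
  refine hall k K κ W (fun i => π (Ideal.Quotient.mk _ (X i))) ?_ ?_ d bas
  · rw [eq_top_iff]
    intro w _
    have hw : w ∈ Submodule.span K (Set.range π) := by rw [hspan]; trivial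
    have hle : Submodule.span K (Set.range π) ≤
        Subalgebra.toSubmodule (Algebra.adjoin K (Set.range fun i : Fin 3 =>
          π (Ideal.Quotient.mk _ (X i)))) := by
      rw [Submodule.span_le]
      rintro _ ⟨a, rfl⟩
      rw [← mk_rep a, pi_mk κ π hπ]
      induction rep a using MvPolynomial.induction_on with
      | C c =>
        rw [eval₂_C]
        exact Subalgebra.algebraMap_mem _ _
      | add p q hp hq =>
        rw [eval₂_add]
        exact Submodule.add_mem _ hp hq
      | mul_X p i hp =>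
        rw [eval₂_mul, eval₂_X]
        exact Subalgebra.mul_mem _ hp (Algebra.subset_adjoin ⟨i, rfl⟩)
    exact hle hw
  · have h : (Ideal.Quotient.mk _ (X 2) : SurfRing k) ^ 2 =
        Ideal.Quotient.mk _ (X 0) ^ 4 + Ideal.Quotient.mk _ (X 1) ^ 4 := by
      rw [← map_pow, ← map_pow, ← map_pow, ← map_add, Ideal.Quotient.eq]
      exact Ideal.subset_span rfl
    rw [← map_pow, h, map_add, map_pow, map_pow]

theorem tr (hall : T_ALL.{u}) {k K : Type u} [Field k] [IsAlgClosed k] [CharZero k] [Field K]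
    [IsAlgClosed K] (κ : k →+* K) (W : Type u) [CommRing W] [Algebra K W] [Module.Finite K W]
    (π : SurfRing k →+* W) (hπ : ∀ c : k, π (algebraMap k _ c) = algebraMap K W (κ c))
    (hspan : Submodule.span K (Set.range π) = ⊤) {d : ℕ} (m : Fin d → SurfRing k)
    (bas : Module.Basis (Fin d) K W) (hbas : ∀ i, bas i = π (m i))
    (F : MvPolynomial (SurfRing k × Fin d) k)
    (hF : ∀ r : Fin d → SP k, (EM r m).det ≠ 0 → eval (lam r m) F = 0) :
    eval₂ κ (fun x => bas.repr (π x.1) x.2) F = 0 := by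
  have hsm := cfg_sm hall κ W π hπ hspan bas
  let R := MvPolynomial (Idx d) k
  let col : SurfRing k → Fin d → R := fun a => oe (C : k →+* R) (gen k d) (rep a)
  let Dm : Matrix (Fin d) (Fin d) R := Matrix.of fun i j => col (m j) i
  obtain ⟨N, G, hG⟩ := hom F Dm.det fun x : SurfRing k × Fin d => (Dm.adjugate *ᵥ col x.1) x.2
  have hcol : ∀ (E : Type u) [Field E] (κ' : k →+* E) (c : Cfg d E) (a : SurfRing k) (i : Fin d),
      eval₂Hom κ' c.fn (col a i) = oe κ' c (rep a) i := by
    intro E _ κ' c a i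
    rw [oe_map, gen_map]
    congr 2
    ext t
    simp
  have hadj : ∀ (E : Type u) [Field E] (ε : R →+* E) (x : SurfRing k × Fin d),
      ε ((Dm.adjugate *ᵥ col x.1) x.2) = ((Dm.map ε).adjugate *ᵥ fun i => ε (col x.1 i)) x.2 := by
    intro E _ ε x
    rw [RingHom.map_mulVec]
    rw [← RingHom.mapMatrix_apply, ← RingHom.mapMatrix_apply, RingHom.map_adjugate]
    rfl
  have hdet : ∀ (E : Type u) [Field E] (ε : R →+* E), ε Dm.det = (Dm.map ε).det := by
    intro E _ ε
    rw [RingHom.map_det, RingHom.mapMatrix_apply]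
  have hred : ∀ c0 : Cfg d k, IsRed c0 → eval c0.fn (Dm.det * G) = 0 := by
    rintro c0 ⟨p, U, V, -, hsurf, hUV, hM, hv⟩
    let r : Fin d → SP k := fun j => ⟨p j, hsurf j⟩
    let ε : R →+* k := eval₂Hom (RingHom.id k) c0.fn
    have hev : ∀ f : R, eval c0.fn f = ε f := fun f => rfl
    have hc : ∀ a i, ε (col a i) = (U *ᵥ fun j => evp (r j) a) i := by
      intro a i
      rw [hcol k (RingHom.id k) c0 a i, oe_red p U V hUV c0 hM hv]
      congr 2
      funext j
      exact ev_rep (r j) a
    have hD : Dm.map ε = U * EM r m := by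
      ext i j
      rw [Matrix.map_apply]
      change ε (col (m j) i) = _
      rw [hc]
      rfl
    have hU : U.det ≠ 0 := by
      intro h0
      have := congrArg Matrix.det hUV
      rw [Matrix.det_mul, h0, zero_mul, Matrix.det_one] at this
      exact zero_ne_one this
    rw [hev, map_mul]
    by_cases h0 : ε Dm.det = 0
    · rw [h0, zero_mul]
    · have h1 : (EM r m).det ≠ 0 := by
        rw [hdet, hD, Matrix.det_mul] at h0
        exact right_ne_zero_of_mul h0
      rw [hG k ε h0]
      have h2 : ε.comp (algebraMap k R) = RingHom.id k := by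
        ext t
        exact eval₂Hom_C _ _ _
      have h3 : (fun s : SurfRing k × Fin d => ε ((Dm.adjugate *ᵥ col s.1) s.2) / ε Dm.det) =
          lam r m := by
        funext x
        have e1 : (Dm.map ε).det ≠ 0 := by rw [← hdet]; exact h0
        have h4 : (fun i => ε (col x.1 i)) = U *ᵥ fun j => evp (r j) x.1 := by
          funext i; exact hc _ _
        rw [hadj, hdet, h4]
        have h5 : ((Dm.map ε).adjugate *ᵥ (U *ᵥ fun j => evp (r j) x.1)) x.2 / (Dm.map ε).det =
            ((Dm.map ε)⁻¹ *ᵥ (U *ᵥ fun j => evp (r j) x.1)) x.2 := by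
          rw [Matrix.inv_def, Matrix.smul_mulVec, Pi.smul_apply, Ring.inverse_eq_inv',
            smul_eq_mul, div_eq_inv_mul]
        rw [h5, hD, Matrix.mul_inv_rev, Matrix.mulVec_mulVec, Matrix.mul_assoc,
          Matrix.nonsing_inv_mul _ (isUnit_iff_ne_zero.2 hU), Matrix.mul_one]
        rfl
      rw [h2, h3]
      have h6 : eval₂ (RingHom.id k) (lam r m) F = eval (lam r m) F := rfl
      rw [h6, hF r h1, mul_zero, mul_zero]
  have hfin := hsm (Dm.det * G) hred
  set c := cfgOf bas fun i => π (Ideal.Quotient.mk _ (X i)) with hc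
  let ε : R →+* K := eval₂Hom κ c.fn
  have hcc : ∀ a i, ε (col a i) = bas.repr (π a) i := by
    intro a i
    rw [hcol K κ c a i, hc, oe_cfg, ← pi_mk κ π hπ, mk_rep]
  have hD : Dm.map ε = 1 := by
    ext i j
    rw [Matrix.map_apply]
    change ε (col (m j) i) = _
    rw [hcc, ← hbas, Module.Basis.repr_self, Finsupp.single_apply, Matrix.one_apply]
    by_cases hij : j = i
    · rw [if_pos hij, if_pos hij.symm]
    · rw [if_neg hij, if_neg (Ne.symm hij)]
  have hdet1 : ε Dm.det = 1 := by rw [hdet, hD, Matrix.det_one]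
  change ε (Dm.det * G) = 0 at hfin
  rw [map_mul, hdet1, one_mul, hG K ε (by rw [hdet1]; exact one_ne_zero), hdet1, one_pow,
    one_mul] at hfin
  have h2 : ε.comp (algebraMap k R) = κ := by
    ext t
    exact eval₂Hom_C _ _ _
  have h3 : (fun s : SurfRing k × Fin d => ε ((Dm.adjugate *ᵥ col s.1) s.2) / 1) =
      fun x => bas.repr (π x.1) x.2 := by
    funext x
    rw [hadj, hD, Matrix.adjugate_one, Matrix.one_mulVec, div_one, hcc]
  rw [h2, h3] at hfin
  exact hfin

end main

end Pool.Agent.H65.HZ.TR
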