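import Pool.Agent.H12.HS.Stmt

/-!
# The tangent map at the origin of the surface
-/

namespace Pool.Agent.H65.HZ.Tan

open MvPolynomial Pool.Agent.H12.HS

universe u

section
variable (k : Type u) [Field k]

/-- the ring `k[x,y,z]/(x,y,z)^2` -/
abbrev TT : Type u := TrivSqZeroExt k (Fin 3 → k)

/-- the map of the polynomial ring -/
noncomputable def tau00 : MvPolynomial (Fin 3) k →ₐ[k] TT k :=
  MvPolynomial.aeval fun i => TrivSqZeroExt.inr (Pi.single i 1)

theorem tau00_rel : tau00 k (X 2 ^ 2 - (X 0 ^ 4 + X 1 ^ 4)) = 0 := by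
  have h : ∀ i : Fin 3, (tau00 k (X i)) ^ 2 = 0 := by
    intro i
    rw [tau00, aeval_X, sq, TrivSqZeroExt.inr_mul_inr]
  have h4 : ∀ i : Fin 3, (tau00 k (X i)) ^ 4 = 0 := by
    intro i
    rw [show (4 : ℕ) = 2 * 2 from rfl, pow_mul, h, zero_pow two_ne_zero]
  rw [map_sub, map_add, map_pow, map_pow, map_pow, h, h4, h4, add_zero, sub_zero]

/-- the tangent map -/
noncomputable def tau0 : SurfRing k →ₐ[k] TT k :=
  Ideal.Quotient.liftₐ _ (tau00 k) (by
    intro a ha
    rw [Ideal.mem_span_singleton] at ha
    obtain ⟨c, rfl⟩ := ha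
    rw [map_mul, tau00_rel, zero_mul])

theorem tau0_X (i : Fin 3) : tau0 k (Ideal.Quotient.mk _ (X i)) = TrivSqZeroExt.inr (Pi.single i 1) := by
  change tau00 k (X i) = _
  rw [tau00, aeval_X]

/-- value at the origin -/
noncomputable def ev : SurfRing k →ₐ[k] k := (TrivSqZeroExt.fstHom k k (Fin 3 → k)).comp (tau0 k)

theorem ev_def (s : SurfRing k) : ev k s = (tau0 k s).fst := rfl

theorem ev_X (i : Fin 3) : ev k (Ideal.Quotient.mk _ (X i)) = 0 := by
  rw [ev_def, tau0_X, TrivSqZeroExt.fst_inr]

theorem sub_mem (s : SurfRing k) : s - algebraMap k (SurfRing k) (ev k s) ∈ origin k := by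
  obtain ⟨f, rfl⟩ := Ideal.Quotient.mk_surjective s
  induction f using MvPolynomial.induction_on with
  | C c =>
    have : (Ideal.Quotient.mk _ (C c) : SurfRing k) = algebraMap k (SurfRing k) c := rfl
    rw [this, AlgHom.commutes]
    simp
  | add p q hp hq =>
    rw [map_add, map_add, map_add]
    have := Ideal.add_mem _ hp hq
    convert this using 1
    ring
  | mul_X p i hp =>
    rw [map_mul, map_mul, ev_X, mul_zero, map_zero, sub_zero]
    apply Ideal.mul_mem_left
    exact Ideal.subset_span ⟨i, rfl⟩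

theorem ker_ev : RingHom.ker (ev k) = origin k := by
  apply le_antisymm
  · intro s hs
    have h := sub_mem k s
    rw [RingHom.mem_ker] at hs
    rwa [hs, map_zero, sub_zero] at h
  · rw [origin, Ideal.span_le]
    rintro _ ⟨i, rfl⟩
    exact ev_X k i

theorem origin_max : (origin k).IsMaximal := by
  rw [← ker_ev]
  apply RingHom.ker_isMaximal_of_surjective
  intro c
  exact ⟨algebraMap k _ c, by simp⟩

end

section
variable (k : Type u) [Field k] [(origin k).IsMaximal]

/-- the local ring -/
abbrev LL : Type u := Localization.AtPrime (origin k)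

/-- the tangent map of the local ring -/
noncomputable def tau : LL k →+* TT k :=
  IsLocalization.lift (M := (origin k).primeCompl) (g := (tau0 k).toRingHom) (by
    intro y
    change IsUnit (tau0 k y)
    rw [TrivSqZeroExt.isUnit_iff_isUnit_fst, ← ev_def, isUnit_iff_ne_zero]
    intro h
    have : (y : SurfRing k) ∈ RingHom.ker (ev k) := h
    rw [ker_ev] at this
    exact y.2 this)

theorem tau_alg (s : SurfRing k) : tau k (algebraMap _ _ s) = tau0 k s := by
  rw [tau, IsLocalization.lift_eq]
  rfl

theorem tau_fst (s : LL k) (hs : s ∈ IsLocalRing.maximalIdeal (LL k)) : (tau k s).fst = 0 := by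
  by_contra h
  obtain ⟨a, b, rfl⟩ := IsLocalization.exists_mk'_eq (origin k).primeCompl s
  rw [tau, IsLocalization.lift_mk'] at h
  have h1 : a ∉ origin k := by
    intro ha
    apply h
    rw [TrivSqZeroExt.fst_mul]
    have : (tau0 k a).fst = 0 := by
      rw [← ev_def]
      rw [← ker_ev] at ha
      exact ha
    change (tau0 k a).fst * _ = 0
    rw [this, zero_mul]
  have h2 : IsUnit (IsLocalization.mk' (LL k) a b) := by
    rw [IsLocalization.AtPrime.isUnit_mk'_iff (LL k) (origin k)]
    exact h1
  exact hs h2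

end

end Pool.Agent.H65.HZ.Tan
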